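import Pool.Agent.H26R2.Basic

/-!
Automorphisms of the free group of rank four fixing `∂ = [a,b][c,d]`: the lifts of the point
pushing maps and of a Dehn twist.
-/

set_option autoImplicit false
set_option linter.unusedSimpArgs false
set_option linter.unnecessarySeqFocus false

namespace Pool.Agent.H26R2

/-- The free group of rank four. -/
abbrev W : Type := FreeGroup (Fin 4)

namespace W

/-- generator -/
def a : W := FreeGroup.of 0
/-- generator -/
def b : W := FreeGroup.of 1
/-- generator -/
def c : W := FreeGroup.of 2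
/-- generator -/
def d : W := FreeGroup.of 3

/-- boundary word -/
def D : W := cm a b * cm c d

end W

open W

/-- Endomorphism given by the images of the generators. -/
def en (x y z w : W) : W →* W := FreeGroup.lift ![x, y, z, w]

@[simp] theorem en_a (x y z w : W) : en x y z w a = x := by simp [en, a]
@[simp] theorem en_b (x y z w : W) : en x y z w b = y := by simp [en, b]
@[simp] theorem en_c (x y z w : W) : en x y z w c = z := by simp [en, c]
@[simp] theorem en_d (x y z w : W) : en x y z w d = w := by simp [en, d]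

theorem hom_ext {G : Type*} [Group G] {f g : W →* G} (ha : f a = g a) (hb : f b = g b)
    (hc : f c = g c) (hd : f d = g d) : f = g := by
  ext i
  fin_cases i
  · exact ha
  · exact hb
  · exact hc
  · exact hd

/-- An automorphism from two mutually inverse endomorphisms. -/
def mkAut (f g : W →* W) (h1 : g.comp f = MonoidHom.id _) (h2 : f.comp g = MonoidHom.id _) :
    MulAut W := MonoidHom.toMulEquiv f g h1 h2

@[simp] theorem mkAut_apply (f g : W →* W) (h1 : g.comp f = MonoidHom.id _)
    (h2 : f.comp g = MonoidHom.id _) (w : W) : mkAut f g h1 h2 w = f w := rfl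

theorem aut_ext {f g : MulAut W} (ha : f a = g a) (hb : f b = g b)
    (hc : f c = g c) (hd : f d = g d) : f = g := by
  have : f.toMonoidHom = g.toMonoidHom := hom_ext ha hb hc hd
  ext i : 1
  exact DFunLike.congr_fun this i

/-! ### the maps -/

/-- push along `a` -/
def fA : W →* W := en a (D⁻¹ * a * b * a⁻¹) (D⁻¹ * a * c * (D⁻¹ * a)⁻¹) (D⁻¹ * a * d * (D⁻¹ * a)⁻¹)
/-- inverse of push along `a` -/
def gA : W →* W := en a ((D⁻¹ * a)⁻¹ * b * a) ((D⁻¹ * a)⁻¹ * c * (D⁻¹ * a)) ((D⁻¹ * a)⁻¹ * d * (D⁻¹ * a))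

theorem fA_D : fA D = D := by
  rw [D, map_mul, map_cm, map_cm]
  simp only [fA, en_a, en_b, en_c, en_d]
  simp only [cm, D]
  group

theorem gA_D : gA D = D := by
  rw [D, map_mul, map_cm, map_cm]
  simp only [gA, en_a, en_b, en_c, en_d]
  simp only [cm, D]
  group

theorem fgA : fA.comp gA = MonoidHom.id _ := by
  apply hom_ext <;>
  · simp only [MonoidHom.comp_apply, MonoidHom.id_apply, gA, en_a, en_b, en_c, en_d, map_mul, map_inv,
      fA_D]
    simp only [fA, en_a, en_b, en_c, en_d]
    try group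

theorem gfA : gA.comp fA = MonoidHom.id _ := by
  apply hom_ext <;>
  · simp only [MonoidHom.comp_apply, MonoidHom.id_apply, fA, en_a, en_b, en_c, en_d, map_mul, map_inv,
      gA_D]
    simp only [gA, en_a, en_b, en_c, en_d]
    try group

/-- push along `a` -/
def pA : MulAut W := mkAut fA gA gfA fgA

/-- push along `b` -/
def fB : W →* W := en (D * b * a * b⁻¹) b (b * D * c * (b * D)⁻¹) (b * D * d * (b * D)⁻¹)
/-- inverse of push along `b` -/
def gB : W →* W := en (b⁻¹ * D⁻¹ * a * b) b ((b * D)⁻¹ * c * (b * D)) ((b * D)⁻¹ * d * (b * D))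

theorem fB_D : fB D = D := by
  rw [D, map_mul, map_cm, map_cm]
  simp only [fB, en_a, en_b, en_c, en_d]
  simp only [cm, D]
  group

theorem gB_D : gB D = D := by
  rw [D, map_mul, map_cm, map_cm]
  simp only [gB, en_a, en_b, en_c, en_d]
  simp only [cm, D]
  group

theorem fgB : fB.comp gB = MonoidHom.id _ := by
  apply hom_ext <;>
  · simp only [MonoidHom.comp_apply, MonoidHom.id_apply, gB, en_a, en_b, en_c, en_d, map_mul, map_inv,
      fB_D]
    simp only [fB, en_a, en_b, en_c, en_d]
    try group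

theorem gfB : gB.comp fB = MonoidHom.id _ := by
  apply hom_ext <;>
  · simp only [MonoidHom.comp_apply, MonoidHom.id_apply, fB, en_a, en_b, en_c, en_d, map_mul, map_inv,
      gB_D]
    simp only [gB, en_a, en_b, en_c, en_d]
    try group

/-- push along `b` -/
def pB : MulAut W := mkAut fB gB gfB fgB

/-- push along `c` -/
def fC : W →* W := en (c * D⁻¹ * a * (c * D⁻¹)⁻¹) (c * D⁻¹ * b * (c * D⁻¹)⁻¹) c (D⁻¹ * c * d * c⁻¹)
/-- inverse of push along `c` -/
def gC : W →* W := en ((c * D⁻¹)⁻¹ * a * (c * D⁻¹)) ((c * D⁻¹)⁻¹ * b * (c * D⁻¹)) c (c⁻¹ * D * d * c)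

theorem fC_D : fC D = D := by
  rw [D, map_mul, map_cm, map_cm]
  simp only [fC, en_a, en_b, en_c, en_d]
  simp only [cm, D]
  group

theorem gC_D : gC D = D := by
  rw [D, map_mul, map_cm, map_cm]
  simp only [gC, en_a, en_b, en_c, en_d]
  simp only [cm, D]
  group

theorem fgC : fC.comp gC = MonoidHom.id _ := by
  apply hom_ext <;>
  · simp only [MonoidHom.comp_apply, MonoidHom.id_apply, gC, en_a, en_b, en_c, en_d, map_mul, map_inv,
      fC_D]
    simp only [fC, en_a, en_b, en_c, en_d]
    try group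

theorem gfC : gC.comp fC = MonoidHom.id _ := by
  apply hom_ext <;>
  · simp only [MonoidHom.comp_apply, MonoidHom.id_apply, fC, en_a, en_b, en_c, en_d, map_mul, map_inv,
      gC_D]
    simp only [gC, en_a, en_b, en_c, en_d]
    try group

/-- push along `c` -/
def pC : MulAut W := mkAut fC gC gfC fgC

/-- push along `d` -/
def fD : W →* W := en (D * d * a * (D * d)⁻¹) (D * d * b * (D * d)⁻¹) (D * d * c * d⁻¹) d
/-- inverse of push along `d` -/
def gD : W →* W := en ((D * d)⁻¹ * a * (D * d)) ((D * d)⁻¹ * b * (D * d)) (d⁻¹ * D⁻¹ * c * d) d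

theorem fD_D : fD D = D := by
  rw [D, map_mul, map_cm, map_cm]
  simp only [fD, en_a, en_b, en_c, en_d]
  simp only [cm, D]
  group

theorem gD_D : gD D = D := by
  rw [D, map_mul, map_cm, map_cm]
  simp only [gD, en_a, en_b, en_c, en_d]
  simp only [cm, D]
  group

theorem fgD : fD.comp gD = MonoidHom.id _ := by
  apply hom_ext <;>
  · simp only [MonoidHom.comp_apply, MonoidHom.id_apply, gD, en_a, en_b, en_c, en_d, map_mul, map_inv,
      fD_D]
    simp only [fD, en_a, en_b, en_c, en_d]
    try group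

theorem gfD : gD.comp fD = MonoidHom.id _ := by
  apply hom_ext <;>
  · simp only [MonoidHom.comp_apply, MonoidHom.id_apply, fD, en_a, en_b, en_c, en_d, map_mul, map_inv,
      gD_D]
    simp only [gD, en_a, en_b, en_c, en_d]
    try group

/-- push along `d` -/
def pD : MulAut W := mkAut fD gD gfD fgD

/-- Dehn twist -/
def fT : W →* W := en a (b * a) c d
/-- inverse of the Dehn twist -/
def gT : W →* W := en a (b * a⁻¹) c d

theorem fT_D : fT D = D := by
  rw [D, map_mul, map_cm, map_cm]
  simp only [fT, en_a, en_b, en_c, en_d]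
  simp only [cm]
  group

theorem gT_D : gT D = D := by
  rw [D, map_mul, map_cm, map_cm]
  simp only [gT, en_a, en_b, en_c, en_d]
  simp only [cm]
  group

theorem fgT : fT.comp gT = MonoidHom.id _ := by
  apply hom_ext <;>
  · simp only [MonoidHom.comp_apply, MonoidHom.id_apply, gT, fT, en_a, en_b, en_c, en_d, map_mul,
      map_inv]
    try group

theorem gfT : gT.comp fT = MonoidHom.id _ := by
  apply hom_ext <;>
  · simp only [MonoidHom.comp_apply, MonoidHom.id_apply, gT, fT, en_a, en_b, en_c, en_d, map_mul,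
      map_inv]
    try group

/-- Dehn twist -/
def pT : MulAut W := mkAut fT gT gfT fgT

/-! ### values -/

theorem pA_D : pA D = D := fA_D
theorem pB_D : pB D = D := fB_D
theorem pC_D : pC D = D := fC_D
theorem pD_D : pD D = D := fD_D
theorem pT_D : pT D = D := fT_D

theorem pA_a : pA a = a := by
  change fA a = _
  simp only [fA, en_a]
theorem pA_b : pA b = D⁻¹ * a * b * a⁻¹ := by
  change fA b = _
  simp only [fA, en_b]
theorem pA_c : pA c = D⁻¹ * a * c * (D⁻¹ * a)⁻¹ := by
  change fA c = _
  simp only [fA, en_c]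
theorem pA_d : pA d = D⁻¹ * a * d * (D⁻¹ * a)⁻¹ := by
  change fA d = _
  simp only [fA, en_d]

theorem pB_a : pB a = D * b * a * b⁻¹ := by
  change fB a = _
  simp only [fB, en_a]
theorem pB_b : pB b = b := by
  change fB b = _
  simp only [fB, en_b]
theorem pB_c : pB c = b * D * c * (b * D)⁻¹ := by
  change fB c = _
  simp only [fB, en_c]
theorem pB_d : pB d = b * D * d * (b * D)⁻¹ := by
  change fB d = _
  simp only [fB, en_d]

theorem pC_a : pC a = c * D⁻¹ * a * (c * D⁻¹)⁻¹ := by
  change fC a = _
  simp only [fC, en_a]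
theorem pC_b : pC b = c * D⁻¹ * b * (c * D⁻¹)⁻¹ := by
  change fC b = _
  simp only [fC, en_b]
theorem pC_c : pC c = c := by
  change fC c = _
  simp only [fC, en_c]
theorem pC_d : pC d = D⁻¹ * c * d * c⁻¹ := by
  change fC d = _
  simp only [fC, en_d]

theorem pD_a : pD a = D * d * a * (D * d)⁻¹ := by
  change fD a = _
  simp only [fD, en_a]
theorem pD_b : pD b = D * d * b * (D * d)⁻¹ := by
  change fD b = _
  simp only [fD, en_b]
theorem pD_c : pD c = D * d * c * d⁻¹ := by
  change fD c = _
  simp only [fD, en_c]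
theorem pD_d : pD d = d := by
  change fD d = _
  simp only [fD, en_d]

theorem pT_a : pT a = a := by
  change fT a = _
  simp only [fT, en_a]
theorem pT_b : pT b = b * a := by
  change fT b = _
  simp only [fT, en_b]
theorem pT_c : pT c = c := by
  change fT c = _
  simp only [fT, en_c]
theorem pT_d : pT d = d := by
  change fT d = _
  simp only [fT, en_d]

/-! ### relations -/

theorem T_A : pT * pA = pA * pT := by
  apply aut_ext <;>
  simp only [MulAut.mul_apply, pT_a, pT_b, pT_c, pT_d, pT_D, pA_a, pA_b, pA_c, pA_d, map_mul,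
    map_inv] <;> group

theorem T_C : pT * pC = pC * pT := by
  apply aut_ext <;>
  simp only [MulAut.mul_apply, pT_a, pT_b, pT_c, pT_d, pT_D, pC_a, pC_b, pC_c, pC_d, map_mul,
    map_inv] <;> group

theorem T_D : pT * pD = pD * pT := by
  apply aut_ext <;>
  simp only [MulAut.mul_apply, pT_a, pT_b, pT_c, pT_d, pT_D, pD_a, pD_b, pD_c, pD_d, map_mul,
    map_inv] <;> group

theorem T_B : pT * pB = pB * pA * pT := by
  apply aut_ext <;>
  simp only [MulAut.mul_apply, pT_a, pT_b, pT_c, pT_d, pT_D, pA_a, pA_b, pA_c, pA_d,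
    pB_a, pB_b, pB_c, pB_d, pB_D, map_mul, map_inv] <;> group

/-- the product of the twist about `[a,b]` and the inverse twist about `[c,d]` -/
def fE : W →* W := en (cm a b * a * (cm a b)⁻¹) (cm a b * b * (cm a b)⁻¹)
  ((cm c d)⁻¹ * c * cm c d) ((cm c d)⁻¹ * d * cm c d)

/-- its inverse -/
def gE : W →* W := en ((cm a b)⁻¹ * a * cm a b) ((cm a b)⁻¹ * b * cm a b)
  (cm c d * c * (cm c d)⁻¹) (cm c d * d * (cm c d)⁻¹)

theorem fE_ab : fE (cm a b) = cm a b := by
  rw [map_cm]
  simp only [fE, en_a, en_b, en_c, en_d]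
  simp only [cm]
  group

theorem fE_cd : fE (cm c d) = cm c d := by
  rw [map_cm]
  simp only [fE, en_a, en_b, en_c, en_d]
  simp only [cm]
  group

theorem gE_ab : gE (cm a b) = cm a b := by
  rw [map_cm]
  simp only [gE, en_a, en_b, en_c, en_d]
  simp only [cm]
  group

theorem gE_cd : gE (cm c d) = cm c d := by
  rw [map_cm]
  simp only [gE, en_a, en_b, en_c, en_d]
  simp only [cm]
  group

theorem fE_D : fE D = D := by
  rw [D, map_mul, fE_ab, fE_cd]

theorem fgE : fE.comp gE = MonoidHom.id _ := by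
  apply hom_ext <;>
  · simp only [MonoidHom.comp_apply, MonoidHom.id_apply, gE, en_a, en_b, en_c, en_d, map_mul,
      map_inv, fE_ab, fE_cd]
    simp only [fE, en_a, en_b, en_c, en_d]
    try group

theorem gfE : gE.comp fE = MonoidHom.id _ := by
  apply hom_ext <;>
  · simp only [MonoidHom.comp_apply, MonoidHom.id_apply, fE, en_a, en_b, en_c, en_d, map_mul,
      map_inv, gE_ab, gE_cd]
    simp only [gE, en_a, en_b, en_c, en_d]
    try group

/-- the product of the twist about `[a,b]` and the inverse twist about `[c,d]` -/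
def pE : MulAut W := mkAut fE gE gfE fgE

theorem pE_D : pE D = D := fE_D

theorem pE_a : pE a = cm a b * a * (cm a b)⁻¹ := by
  change fE a = _
  simp only [fE, en_a]
theorem pE_b : pE b = cm a b * b * (cm a b)⁻¹ := by
  change fE b = _
  simp only [fE, en_b]
theorem pE_c : pE c = (cm c d)⁻¹ * c * cm c d := by
  change fE c = _
  simp only [fE, en_c]
theorem pE_d : pE d = (cm c d)⁻¹ * d * cm c d := by
  change fE d = _
  simp only [fE, en_d]

theorem AB : MulAut.conj D * (pA * pB) = pE * (pB * pA) := by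
  apply aut_ext <;>
  simp only [MulAut.mul_apply, pA_a, pA_b, pA_c, pA_d, pA_D, MulAut.conj_apply,
    pB_a, pB_b, pB_c, pB_d, pB_D, pE_a, pE_b, pE_c, pE_d, pE_D, map_mul, map_inv] <;>
  simp only [cm, D] <;> group

theorem CD : MulAut.conj D * (pE * (pC * pD)) = pD * pC := by
  apply aut_ext <;>
  simp only [MulAut.mul_apply, pC_a, pC_b, pC_c, pC_d, pC_D, MulAut.conj_apply,
    pD_a, pD_b, pD_c, pD_d, pD_D, pE_a, pE_b, pE_c, pE_d, pE_D, map_mul, map_inv] <;>
  simp only [cm, D] <;> group

end Pool.Agent.H26R2
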