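import Mathlib

/-!
Basic facts used in the construction of a non-separable surface subgroup:
commuting elements of a free group, and two commutator identities.
-/

set_option autoImplicit false
set_option linter.unusedSimpArgs false
set_option linter.unnecessarySeqFocus false

namespace Pool.Agent.H26R2

/-- Commuting elements of a free group are powers of a common element. -/
theorem exists_root {G : Type} [Group G] [IsFreeGroup G] {b c : G} (h : Commute b c) :
    ∃ r : G, ∃ i j : ℤ, b = r ^ i ∧ c = r ^ j := by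
  let H : Subgroup G := Subgroup.closure {b, c}
  have hb : b ∈ H := Subgroup.subset_closure (by simp)
  have hc : c ∈ H := Subgroup.subset_closure (by simp)
  have hcomm : ∀ x ∈ ({b, c} : Set G), ∀ y ∈ ({b, c} : Set G), x * y = y * x := by
    rintro x (rfl | rfl) y (rfl | rfl)
    · rfl
    · exact h
    · exact h.symm
    · rfl
  have hH : ∀ x y : H, x * y = y * x := by
    intro x y
    have := (Subgroup.isMulCommutative_closure hcomm).is_comm.comm x y
    exact this
  let Y := IsFreeGroup.Generators H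
  let e : H ≃* FreeGroup Y := IsFreeGroup.toFreeGroup H
  have hsub : Subsingleton Y := by
    constructor
    intro x y
    by_contra hxy
    have h1 : (FreeGroup.of x : FreeGroup Y) * FreeGroup.of y
        = FreeGroup.of y * FreeGroup.of x := by
      apply e.symm.injective
      rw [map_mul, map_mul, hH]
    classical
    have h2 := congrArg FreeGroup.toWord h1
    simp only [FreeGroup.toWord_mul, FreeGroup.toWord_of] at h2
    have h3 : FreeGroup.reduce ([(x, true)] ++ [(y, true)]) = [(x, true), (y, true)] := by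
      simp [FreeGroup.reduce, hxy]
    have h4 : FreeGroup.reduce ([(y, true)] ++ [(x, true)]) = [(y, true), (x, true)] := by
      simp [FreeGroup.reduce]
    rw [h3, h4] at h2
    simp at h2
    exact hxy h2.1
  have hcyc : ∃ r : FreeGroup Y, ∀ z : FreeGroup Y, ∃ i : ℤ, z = r ^ i := by
    rcases isEmpty_or_nonempty Y with hY | ⟨⟨y⟩⟩
    · exact ⟨1, fun z => ⟨0, Subsingleton.elim _ _⟩⟩
    · refine ⟨FreeGroup.of y, fun z => ?_⟩
      have hz : z ∈ Subgroup.closure (Set.range (FreeGroup.of : Y → FreeGroup Y)) := by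
        rw [FreeGroup.closure_range_of]; trivial
      have hr : Set.range (FreeGroup.of : Y → FreeGroup Y) = {FreeGroup.of y} := by
        ext w
        constructor
        · rintro ⟨y', rfl⟩
          rw [Subsingleton.elim y' y]; rfl
        · rintro rfl
          exact ⟨y, rfl⟩
      rw [hr] at hz
      obtain ⟨i, hi⟩ := Subgroup.mem_closure_singleton.mp hz
      exact ⟨i, hi.symm⟩
  obtain ⟨r, hr⟩ := hcyc
  obtain ⟨i, hi⟩ := hr (e ⟨b, hb⟩)
  obtain ⟨j, hj⟩ := hr (e ⟨c, hc⟩)
  refine ⟨((e.symm r : H) : G), i, j, ?_, ?_⟩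
  · have : (⟨b, hb⟩ : H) = (e.symm r) ^ i := by
      apply e.injective
      rw [map_zpow, MulEquiv.apply_symm_apply, hi]
    have := congrArg Subtype.val this
    simpa using this
  · have : (⟨c, hc⟩ : H) = (e.symm r) ^ j := by
      apply e.injective
      rw [map_zpow, MulEquiv.apply_symm_apply, hj]
    have := congrArg Subtype.val this
    simpa using this

/-- An element of a free group commuting with an element `c` on which some homomorphism to `ℤ`
takes the value `1` is a power of `c`. -/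
theorem mem_zpowers_of_commute {G : Type} [Group G] [IsFreeGroup G] {b c : G} (h : Commute b c)
    (e : G →* Multiplicative ℤ) (he : e c = Multiplicative.ofAdd 1) : ∃ i : ℤ, b = c ^ i := by
  obtain ⟨r, i, j, hi, hj⟩ := exists_root h
  have h1 : e c = (e r) ^ j := by rw [← map_zpow, ← hj]
  rw [he] at h1
  have h2 : (1 : ℤ) = j * (e r).toAdd := by
    have := congrArg Multiplicative.toAdd h1
    simpa using this
  have h3 : j = 1 ∨ j = -1 := by
    have : j ∣ 1 := ⟨_, h2⟩
    exact Int.isUnit_iff.mp (isUnit_of_dvd_one this)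
  rcases h3 with rfl | rfl
  · refine ⟨i, ?_⟩
    rw [hi, hj, zpow_one]
  · refine ⟨-i, ?_⟩
    rw [hi, hj]
    group

section Ident

variable {G : Type*} [Group G]

/-- `[x,y] = x y x⁻¹ y⁻¹` written out. -/
def cm (x y : G) : G := x * y * x⁻¹ * y⁻¹

theorem map_cm {G' : Type*} [Group G'] (f : G →* G') (x y : G) : f (cm x y) = cm (f x) (f y) := by
  simp [cm]

/-- the word `u₁` -/
def wu1 (_p q : G) : G := q⁻¹
/-- the word `v₁` (to be multiplied with `t`) -/
def wv1 (p q : G) : G := q * p * q⁻¹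
/-- the word `u₂` -/
def wu2 (p q : G) : G := q * p * q⁻¹ * p⁻¹ * q * p⁻¹ * q⁻¹ * p⁻¹ * q⁻¹ * p * q * p⁻¹ * q⁻¹
/-- the word `v₂` (to be multiplied with `t⁻¹`) -/
def wv2 (p q : G) : G := q * p * q⁻¹ * p⁻¹ * q * p * p * q⁻¹ * p * q * p⁻¹ * q⁻¹

/-- the words of the second half -/
def wx1 (c d : G) : G := d⁻¹ * c
/-- the words of the second half -/
def wy1 (c d : G) : G := c⁻¹ * d * c * c * d⁻¹ * c
/-- the words of the second half -/
def wx2 (c d : G) : G := c⁻¹ * d * c * d⁻¹ * d⁻¹
/-- the words of the second half -/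
def wy2 (c d : G) : G := d * c * d⁻¹

theorem ident2 (c d : G) :
    cm (wx1 c d) (wy1 c d) * cm (wx2 c d) (wy2 c d) = cm c d ^ 3 := by
  simp only [cm, wx1, wy1, wx2, wy2, pow_succ, pow_zero]
  group

theorem ident1 (p q t : G) (h1 : t * p = p * t) (h2 : t * q = q * p * t) :
    cm (wu1 p q) (wv1 p q * t) * cm (wu2 p q) (wv2 p q * t⁻¹) = cm p q ^ 3 := by
  -- move `t` to the right
  have h1' : ∀ x : G, t * (p * x) = p * (t * x) := fun x => by
    rw [← mul_assoc, h1, mul_assoc]
  have h2' : ∀ x : G, t * (q * x) = q * (p * (t * x)) := fun x => by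
    rw [← mul_assoc, h2, mul_assoc, mul_assoc]
  have h3 : t⁻¹ * p = p * t⁻¹ := by
    rw [inv_mul_eq_iff_eq_mul, ← mul_assoc, h1, mul_assoc, mul_inv_cancel, mul_one]
  have h3' : ∀ x : G, t⁻¹ * (p * x) = p * (t⁻¹ * x) := fun x => by
    rw [← mul_assoc, h3, mul_assoc]
  have h4 : t * p⁻¹ = p⁻¹ * t := by
    rw [mul_inv_eq_iff_eq_mul, mul_assoc, h1, inv_mul_cancel_left]
  have h4' : ∀ x : G, t * (p⁻¹ * x) = p⁻¹ * (t * x) := fun x => by
    rw [← mul_assoc, h4, mul_assoc]
  have h5 : t⁻¹ * p⁻¹ = p⁻¹ * t⁻¹ := by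
    rw [← mul_inv_rev, ← mul_inv_rev, h1]
  have h5' : ∀ x : G, t⁻¹ * (p⁻¹ * x) = p⁻¹ * (t⁻¹ * x) := fun x => by
    rw [← mul_assoc, h5, mul_assoc]
  have h6 : t * q⁻¹ = p⁻¹ * q⁻¹ * t := by
    have : t * q = q * p * t := h2
    have h : t * q⁻¹ = p⁻¹ * q⁻¹ * (q * p * t) * q⁻¹ := by group
    rw [h, ← this]; group
  have h6' : ∀ x : G, t * (q⁻¹ * x) = p⁻¹ * (q⁻¹ * (t * x)) := fun x => by
    rw [← mul_assoc, h6]; simp only [mul_assoc]
  have h7 : t⁻¹ * q = q * p⁻¹ * t⁻¹ := by
    rw [inv_mul_eq_iff_eq_mul]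
    have : t * (q * p⁻¹ * t⁻¹) = (t * q) * p⁻¹ * t⁻¹ := by group
    rw [this, h2]
    have : q * p * t * p⁻¹ * t⁻¹ = q * (p * (t * p⁻¹) * t⁻¹) := by group
    rw [this, h4]; group
  have h7' : ∀ x : G, t⁻¹ * (q * x) = q * (p⁻¹ * (t⁻¹ * x)) := fun x => by
    rw [← mul_assoc, h7]; simp only [mul_assoc]
  have h8 : t⁻¹ * q⁻¹ = p * q⁻¹ * t⁻¹ := by
    have : (q * t)⁻¹ = (t * (q * p⁻¹))⁻¹ := by
      congr 1
      rw [← mul_assoc, h2, mul_assoc, h4]; group
    have e : t⁻¹ * q⁻¹ = (q * t)⁻¹ := by group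
    rw [e, this]; group
  have h8' : ∀ x : G, t⁻¹ * (q⁻¹ * x) = p * (q⁻¹ * (t⁻¹ * x)) := fun x => by
    rw [← mul_assoc, h8]; simp only [mul_assoc]
  simp only [cm, wu1, wv1, wu2, wv2, pow_succ, pow_zero, mul_inv_rev, inv_inv, mul_assoc,
    one_mul]
  simp only [h1', h2', h3', h4', h5, h5', h6, h6', h7', h8, h8', mul_assoc,
    mul_inv_cancel, inv_mul_cancel, mul_inv_cancel_left, inv_mul_cancel_left, mul_one]

end Ident

end Pool.Agent.H26R2
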