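import Pool.Agent.H26R2.Surf

/-!
Centralisers: of the boundary word in the free group, and of a pair of generators in the
surface group of genus four.
-/

set_option autoImplicit false
set_option linter.unusedSimpArgs false
set_option linter.unnecessarySeqFocus false

namespace Pool.Agent.H26R2

/-- the integral Heisenberg group -/
@[ext] structure Heis where
  /-- coordinate -/
  x : ℤ
  /-- coordinate -/
  y : ℤ
  /-- coordinate -/
  z : ℤ

namespace Heis

instance : Mul Heis := ⟨fun p q => ⟨p.x + q.x, p.y + q.y, p.z + q.z + p.x * q.y⟩⟩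
instance : One Heis := ⟨⟨0, 0, 0⟩⟩
instance : Inv Heis := ⟨fun p => ⟨-p.x, -p.y, -p.z + p.x * p.y⟩⟩

@[simp] theorem mul_x (p q : Heis) : (p * q).x = p.x + q.x := rfl
@[simp] theorem mul_y (p q : Heis) : (p * q).y = p.y + q.y := rfl
@[simp] theorem mul_z (p q : Heis) : (p * q).z = p.z + q.z + p.x * q.y := rfl
@[simp] theorem one_x : (1 : Heis).x = 0 := rfl
@[simp] theorem one_y : (1 : Heis).y = 0 := rfl
@[simp] theorem one_z : (1 : Heis).z = 0 := rfl
@[simp] theorem inv_x (p : Heis) : (p⁻¹).x = -p.x := rfl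
@[simp] theorem inv_y (p : Heis) : (p⁻¹).y = -p.y := rfl
@[simp] theorem inv_z (p : Heis) : (p⁻¹).z = -p.z + p.x * p.y := rfl

instance : Group Heis := Group.ofLeftAxioms
  (by intro p q r; ext <;> simp <;> ring)
  (by intro p; ext <;> simp)
  (by intro p; ext <;> simp)

/-- projection -/
def px : Heis →* Multiplicative ℤ where
  toFun p := Multiplicative.ofAdd p.x
  map_one' := rfl
  map_mul' _ _ := rfl

/-- projection -/
def py : Heis →* Multiplicative ℤ where
  toFun p := Multiplicative.ofAdd p.y
  map_one' := rfl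
  map_mul' _ _ := rfl

/-- centre -/
def zz : Multiplicative ℤ →* Heis where
  toFun n := ⟨0, 0, n.toAdd⟩
  map_one' := rfl
  map_mul' m n := by ext <;> simp

end Heis

open W

/-- representation of `W` in the Heisenberg group -/
def toHeis : W →* Heis := FreeGroup.lift ![⟨1, 0, 0⟩, ⟨0, 1, 0⟩, 1, 1]

theorem toHeis_D : toHeis D = ⟨0, 0, 1⟩ := by
  rw [D, map_mul, map_cm, map_cm]
  have ha : toHeis a = ⟨1, 0, 0⟩ := by simp [toHeis, a]
  have hb : toHeis b = ⟨0, 1, 0⟩ := by simp [toHeis, b]
  have hc : toHeis c = 1 := by simp [toHeis, c]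
  have hd : toHeis d = 1 := by simp [toHeis, d]
  rw [ha, hb, hc, hd]
  simp only [cm]
  ext <;> simp

theorem commute_D {u : W} (h : Commute u D) : ∃ i : ℤ, u = D ^ i := by
  obtain ⟨r, i, j, hi, hj⟩ := exists_root h
  have h1 : (toHeis r) ^ j = ⟨0, 0, 1⟩ := by rw [← map_zpow, ← hj, toHeis_D]
  have hj0 : j ≠ 0 := by
    rintro rfl
    rw [zpow_zero] at h1
    have := congrArg Heis.z h1
    simp at this
  have hx : (toHeis r).x = 0 := by
    have h2 := congrArg Heis.px h1
    rw [map_zpow] at h2
    have h3 : j * (toHeis r).x = 0 := by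
      have := congrArg Multiplicative.toAdd h2
      simpa [Heis.px] using this
    exact (mul_eq_zero.mp h3).resolve_left hj0
  have hy : (toHeis r).y = 0 := by
    have h2 := congrArg Heis.py h1
    rw [map_zpow] at h2
    have h3 : j * (toHeis r).y = 0 := by
      have := congrArg Multiplicative.toAdd h2
      simpa [Heis.py] using this
    exact (mul_eq_zero.mp h3).resolve_left hj0
  have hr : toHeis r = Heis.zz (Multiplicative.ofAdd (toHeis r).z) := by
    ext
    · exact hx
    · exact hy
    · rfl
  rw [hr, ← map_zpow] at h1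
  have h2 : (1 : ℤ) = j * (toHeis r).z := by
    have := congrArg Heis.z h1
    simpa [Heis.zz] using this.symm
  have h3 : j = 1 ∨ j = -1 := by
    have : j ∣ 1 := ⟨_, h2⟩
    exact Int.isUnit_iff.mp (isUnit_of_dvd_one this)
  rcases h3 with rfl | rfl
  · refine ⟨i, ?_⟩
    rw [hi, hj, zpow_one]
  · refine ⟨-i, ?_⟩
    rw [hi, hj]
    group

/-! ### the surface group of genus four as a free-by-cyclic group -/

/-- the index set of the free kernel -/
abbrev X : Type := Option (Fin 3 × Fin 2 × ℤ)

/-- the free kernel -/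
abbrev N : Type := FreeGroup X

/-- generators of the kernel -/
abbrev Y (i : Fin 3) (j : Fin 2) (k : ℤ) : N := FreeGroup.of (some (i, j, k))

/-- the rest of the relator at level `k` -/
def R (k : ℤ) : N := cm (Y 0 0 k) (Y 0 1 k) * (cm (Y 1 0 k) (Y 1 1 k) * cm (Y 2 0 k) (Y 2 1 k))

/-- the shift -/
def sh : N →* N := FreeGroup.lift fun x => match x with
  | none => (R 0)⁻¹ * FreeGroup.of none
  | some (i, j, k) => Y i j (k + 1)

/-- the inverse shift -/
def shi : N →* N := FreeGroup.lift fun x => match x with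
  | none => R (-1) * FreeGroup.of none
  | some (i, j, k) => Y i j (k - 1)

theorem sh_none : sh (FreeGroup.of none) = (R 0)⁻¹ * FreeGroup.of none := by simp [sh]
theorem sh_some (i j k) : sh (Y i j k) = Y i j (k + 1) := by simp [sh]
theorem shi_none : shi (FreeGroup.of none) = R (-1) * FreeGroup.of none := by simp [shi]
theorem shi_some (i j k) : shi (Y i j k) = Y i j (k - 1) := by simp [shi]

theorem sh_R (k) : sh (R k) = R (k + 1) := by
  simp only [R, map_mul, map_cm, sh_some]
theorem shi_R (k) : shi (R k) = R (k - 1) := by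
  simp only [R, map_mul, map_cm, shi_some]

/-- the shift as an automorphism -/
def shE : MulAut N := MonoidHom.toMulEquiv sh shi
  (by
    ext x
    rcases x with _ | ⟨i, j, k⟩
    · simp [sh_none, map_mul, shi_none, shi_R]
    · simp [sh_some, shi_some])
  (by
    ext x
    rcases x with _ | ⟨i, j, k⟩
    · simp [sh_none, map_mul, shi_none, sh_R]
    · simp [sh_some, shi_some])

theorem shE_apply (x : N) : shE x = sh x := rfl

/-- the action of `ℤ` -/
def act : Multiplicative ℤ →* MulAut N := zpowersHom _ shE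

theorem act_one : act (Multiplicative.ofAdd 1) = shE := by simp [act]

theorem act_Y (n : ℤ) (i j k) : act (Multiplicative.ofAdd n) (Y i j k) = Y i j (k + n) := by
  induction n using Int.induction_on generalizing k with
  | zero => simp
  | succ n ih =>
    rw [ofAdd_add, map_mul, MulAut.mul_apply, act_one, shE_apply, sh_some, ih]
    rw [add_assoc, add_comm (1 : ℤ) (n : ℤ)]
  | pred n ih =>
    have h1 : Multiplicative.ofAdd (-(n : ℤ) - 1) =
      Multiplicative.ofAdd (-(n : ℤ)) * (Multiplicative.ofAdd 1)⁻¹ := rfl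
    rw [h1, map_mul, MulAut.mul_apply, map_inv, act_one]
    have h2 : shE⁻¹ (Y i j k) = Y i j (k - 1) := shi_some i j k
    rw [h2, ih]
    have h3 : k - 1 + -(n : ℤ) = k + (-(n : ℤ) - 1) := by ring
    rw [h3]

/-- the free-by-cyclic group -/
abbrev NZ : Type := N ⋊[act] Multiplicative ℤ

/-- from the surface group to the free-by-cyclic group -/
def toNZ : SG 4 →* NZ := sgLift (fun x => match x with
    | (0, 0) => SemidirectProduct.inr (Multiplicative.ofAdd 1)
    | (0, 1) => SemidirectProduct.inl (FreeGroup.of none)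
    | (1, j) => SemidirectProduct.inl (Y 0 j 0)
    | (2, j) => SemidirectProduct.inl (Y 1 j 0)
    | (3, j) => SemidirectProduct.inl (Y 2 j 0)) (by
  have h1 : cm (SemidirectProduct.inr (Multiplicative.ofAdd 1) : NZ)
      (SemidirectProduct.inl (FreeGroup.of none)) = SemidirectProduct.inl (R 0)⁻¹ := by
    rw [cm, ← map_inv (SemidirectProduct.inr : Multiplicative ℤ →* NZ),
      ← SemidirectProduct.inl_aut, act_one, shE_apply, sh_none]
    simp
  simp only [h1]
  simp only [← map_cm, ← map_mul]
  rw [R]
  simp only [cm]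
  rw [← map_one SemidirectProduct.inl]
  congr 1
  group)

/-- from the kernel to the surface group -/
def fromN : N →* SG 4 := FreeGroup.lift fun x => match x with
  | none => ge 0 1
  | some (i, j, k) => (ge 0 0) ^ k * ge i.succ j * (ge 0 0) ^ (-k)

theorem fromN_none : fromN (FreeGroup.of none) = ge 0 1 := by simp [fromN]
theorem fromN_some (i j k) : fromN (Y i j k) =
  (ge 0 0) ^ k * ge i.succ j * (ge 0 0) ^ (-k) := by simp [fromN]

theorem fromN_R0 : fromN (R 0)⁻¹ = cm (ge 0 0) (ge 0 1) := by
  have h := eq_inv_of_mul_eq_one_left (by rw [← mul_assoc]; exact sg_rel :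
    cm (ge 0 0) (ge 0 1) * (cm (ge 1 0) (ge 1 1) *
      (cm (ge 2 0) (ge 2 1) * cm (ge 3 0) (ge 3 1))) = 1)
  rw [h, map_inv, R]
  simp only [map_mul, map_cm, fromN_some]
  simp

theorem fromN_sh (x : N) : fromN (sh x) = ge 0 0 * fromN x * (ge 0 0)⁻¹ := by
  have : fromN.comp sh = (MulAut.conj (ge 0 0)).toMonoidHom.comp fromN := by
    ext x
    rcases x with _ | ⟨i, j, k⟩
    · simp only [MonoidHom.comp_apply, sh_none, map_mul, fromN_R0, fromN_none]
      simp [cm]
    · simp only [MonoidHom.comp_apply, sh_some, fromN_some]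
      simp only [MulEquiv.coe_toMonoidHom, MulAut.conj_apply]
      group
  exact DFunLike.congr_fun this x

theorem fromN_act (n : ℤ) (x : N) : fromN (act (Multiplicative.ofAdd n) x) =
    (ge 0 0) ^ n * fromN x * (ge 0 0) ^ (-n) := by
  induction n using Int.induction_on generalizing x with
  | zero => simp
  | succ n ih =>
    rw [ofAdd_add, map_mul, MulAut.mul_apply, act_one, shE_apply, ih, fromN_sh]
    group
  | pred n ih =>
    have h1 : Multiplicative.ofAdd (-(n : ℤ) - 1) =
      Multiplicative.ofAdd (-(n : ℤ)) * (Multiplicative.ofAdd 1)⁻¹ := rfl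
    rw [h1, map_mul, MulAut.mul_apply, map_inv, act_one, ih]
    have h2 : fromN x = ge 0 0 * fromN (shE⁻¹ x) * (ge 0 0)⁻¹ := by
      rw [← fromN_sh, ← shE_apply, MulAut.apply_inv_self]
    rw [h2]
    group

/-- from the free-by-cyclic group to the surface group -/
def fromNZ : NZ →* SG 4 := SemidirectProduct.lift fromN (zpowersHom _ (ge 0 0)) (by
  intro n
  refine MonoidHom.ext fun x => ?_
  have h := fromN_act n.toAdd x
  change fromN (act n x) = MulAut.conj (zpowersHom _ (ge 0 0) n) (fromN x)
  rw [MulAut.conj_apply, zpowersHom_apply]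
  rw [zpow_neg] at h
  exact h)

theorem fromNZ_toNZ (x : SG 4) : fromNZ (toNZ x) = x := by
  have : fromNZ.comp toNZ = MonoidHom.id _ := by
    apply sg_hom_ext
    rintro ⟨i, j⟩
    fin_cases i <;> fin_cases j <;> simp [fromNZ, toNZ, fromN_none, fromN_some]
  exact DFunLike.congr_fun this x

theorem toNZ_inj : Function.Injective toNZ := fun x y h => by
  rw [← fromNZ_toNZ x, h, fromNZ_toNZ]

/-- counting homomorphism -/
def cnt (y : X) : N →* Multiplicative ℤ := by
  classical
  exact FreeGroup.lift fun x => if x = y then Multiplicative.ofAdd 1 else 1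

theorem cnt_self (y : X) : cnt y (FreeGroup.of y) = Multiplicative.ofAdd 1 := by simp [cnt]
theorem cnt_ne {x y : X} (h : x ≠ y) : cnt y (FreeGroup.of x) = 1 := by simp [cnt, h]

/-- An element of the surface group commuting with the third pair of generators is trivial. -/
theorem cent (h : SG 4) (h0 : Commute h (ge 2 0)) (h1 : Commute h (ge 2 1)) : h = 1 := by
  apply toNZ_inj
  rw [map_one]
  have e0 : toNZ (ge 2 0) = SemidirectProduct.inl (Y 1 0 0) := by simp [toNZ]
  have e1 : toNZ (ge 2 1) = SemidirectProduct.inl (Y 1 1 0) := by simp [toNZ]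
  have c0 : Commute (toNZ h) (SemidirectProduct.inl (Y 1 0 0)) := by
    rw [← e0]; exact h0.map toNZ
  have c1 : Commute (toNZ h) (SemidirectProduct.inl (Y 1 1 0)) := by
    rw [← e1]; exact h1.map toNZ
  generalize toNZ h = g at c0 c1
  obtain ⟨n, k⟩ := g
  have f0 := congrArg SemidirectProduct.left c0.eq
  have f1 := congrArg SemidirectProduct.left c1.eq
  simp only [SemidirectProduct.mul_left, SemidirectProduct.left_inl, SemidirectProduct.right_inl,
    map_one, MulAut.one_apply] at f0 f1
  have hk : act k (Y 1 0 0) = Y 1 0 (0 + k.toAdd) := act_Y k.toAdd 1 0 0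
  have hk1 : act k (Y 1 1 0) = Y 1 1 (0 + k.toAdd) := act_Y k.toAdd 1 1 0
  rw [hk, zero_add] at f0
  rw [hk1, zero_add] at f1
  have hk0 : k.toAdd = 0 := by
    by_contra hne
    have := congrArg (cnt (some (1, 0, 0))) f0
    rw [map_mul, map_mul, cnt_self, cnt_ne (by simpa using hne)] at this
    rw [mul_one, mul_comm] at this
    have h2 := congrArg Multiplicative.toAdd this
    simp at h2
  rw [hk0] at f0 f1
  have g0 : Commute n (Y 1 0 0) := f0
  have g1 : Commute n (Y 1 1 0) := f1
  obtain ⟨i, hi⟩ := mem_zpowers_of_commute g0 (cnt (some (1, 0, 0))) (cnt_self _)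
  obtain ⟨j, hj⟩ := mem_zpowers_of_commute g1 (cnt (some (1, 1, 0))) (cnt_self _)
  have hi0 : i = 0 := by
    have h2 := congrArg (cnt (some (1, 0, 0))) (hi.symm.trans hj)
    rw [map_zpow, map_zpow, cnt_self, cnt_ne (by simp)] at h2
    have h3 := congrArg Multiplicative.toAdd h2
    simpa using h3
  have hn : n = 1 := by rw [hi, hi0, zpow_zero]
  have hk' : k = 1 := hk0
  rw [hn, hk']
  rfl

end Pool.Agent.H26R2
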