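import Pool.Agent.H26R2.Basic

/-!
The elementary reason for non-separability: `t³` lies in every subgroup of finite index
containing three elements.
-/

set_option autoImplicit false

namespace Pool.Agent.H26R2

variable {G : Type*} [Group G]

theorem cube_mem (p q t : G) (h1 : t * p = p * t) (h2 : t * q = q * p * t)
    (K : Subgroup G) (hK : K.FiniteIndex) (hq : q ∈ K) (hv : q * p * q⁻¹ * t ∈ K)
    (hc : p⁻¹ * (q * p * q⁻¹) * (q * p * q⁻¹) * p * t⁻¹ ∈ K) : t ^ 3 ∈ K := by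
  -- conjugation of `t` by `q⁻¹`
  have hconj : q⁻¹ * t * q = p * t := by
    rw [mul_assoc, h2]; group
  have hcomm : Commute p t := h1.symm
  have hpt2 : p * p * t ∈ K := by
    have h : q⁻¹ * (q * p * q⁻¹ * t) * q ∈ K := K.mul_mem (K.mul_mem (K.inv_mem hq) hv) hq
    have e : q⁻¹ * (q * p * q⁻¹ * t) * q = p * (q⁻¹ * t * q) := by group
    rw [e, hconj, ← mul_assoc] at h
    exact h
  have hpow : ∀ n : ℕ, t ^ n ∈ K → (p * t) ^ n ∈ K := by
    intro n hn
    have h : q⁻¹ * t ^ n * q ∈ K := K.mul_mem (K.mul_mem (K.inv_mem hq) hn) hq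
    have e : q⁻¹ * t ^ n * q = (q⁻¹ * t * q) ^ n := by
      have := conj_pow (i := n) (a := q⁻¹) (b := t)
      rw [inv_inv] at this
      exact this.symm
    rw [e, hconj] at h
    exact h
  have hdouble : ∀ n : ℕ, (p * t) ^ (2 * n) = (p * p * t) ^ n * t ^ n := by
    intro n
    have hc2 : Commute (p * p * t) t := (hcomm.mul_left hcomm).mul_left (Commute.refl t)
    rw [pow_mul, ← hc2.mul_pow]
    congr 1
    rw [pow_two]
    have : p * t * (p * t) = p * (t * p) * t := by group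
    rw [this, h1]; group
  -- minimal positive exponent
  have hex : ∃ n : ℕ, 0 < n ∧ t ^ n ∈ K := by
    obtain ⟨n, hn0, -, hn⟩ := Subgroup.exists_pow_mem_of_index_ne_zero hK.index_ne_zero t
    exact ⟨n, hn0, hn⟩
  classical
  obtain ⟨hn0, hn⟩ := Nat.find_spec hex
  have hmin : ∀ m : ℕ, 0 < m → t ^ m ∈ K → Nat.find hex ≤ m := fun m hm hm' =>
    Nat.find_min' hex ⟨hm, hm'⟩
  generalize Nat.find hex = n at hn0 hn hmin
  rcases Nat.even_or_odd' n with ⟨m, hm | hm⟩
  · exfalso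
    have h3 := hpow n hn
    rw [hm, hdouble] at h3
    have h4 : t ^ m ∈ K := by
      have := K.mul_mem (K.inv_mem (K.pow_mem hpt2 m)) h3
      rwa [inv_mul_cancel_left] at this
    have := hmin m (by omega) h4
    omega
  · -- `κ = p t^{-m}`
    have h3 := hpow n hn
    have h4 := hdouble (m + 1)
    have h5 : (p * t) ^ (2 * (m + 1)) = (p * t) ^ n * (p * t) := by
      rw [← pow_succ, hm]; congr 1
    have h6 : p * t * (t ^ (m + 1))⁻¹ ∈ K := by
      have e : p * t * (t ^ (m + 1))⁻¹ = ((p * t) ^ n)⁻¹ * (p * p * t) ^ (m + 1) := by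
        rw [eq_inv_mul_iff_mul_eq, ← mul_assoc, ← h5, h4, mul_inv_cancel_right]
      rw [e]
      exact K.mul_mem (K.inv_mem h3) (K.pow_mem hpt2 _)
    have h7 : p * t * (t ^ (m + 1))⁻¹ = p * (t ^ m)⁻¹ := by
      rw [pow_succ, mul_inv_rev, ← mul_assoc, mul_inv_cancel_right]
    rw [h7] at h6
    -- `γ₁` commutes with `t`
    have hg : Commute (q * p * q⁻¹) t := by
      have h8 : t * (q * p * q⁻¹) = q * p * q⁻¹ * t := by
        have e1 : t * (q * p * q⁻¹) = (t * q) * p * q⁻¹ := by group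
        have e2 : q * p * t * p * q⁻¹ = q * p * (t * p) * q⁻¹ := by group
        have e3 : q * p * (p * t) * q⁻¹ = q * p * p * (t * q⁻¹) := by group
        have e4 : t * q⁻¹ = p⁻¹ * q⁻¹ * t := by
          have : t * q⁻¹ = p⁻¹ * q⁻¹ * (q * p * t) * q⁻¹ := by group
          rw [this, ← h2]; group
        rw [e1, h2, e2, h1, e3, e4]; group
      exact h8.symm
    have hgm : Commute (q * p * q⁻¹) ((t ^ m)⁻¹) := (hg.pow_right m).inv_right
    have hpm : Commute p ((t ^ m)⁻¹) := (hcomm.pow_right m).inv_right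
    have htm : Commute t ((t ^ m)⁻¹) := ((Commute.refl t).pow_right m).inv_right
    have h9 : p * (t ^ m)⁻¹ * (p⁻¹ * (q * p * q⁻¹) * (q * p * q⁻¹) * p * t⁻¹) *
        (p * (t ^ m)⁻¹)⁻¹ = (q * p * q⁻¹) * (q * p * q⁻¹) * t⁻¹ := by
      have hx : Commute ((t ^ m)⁻¹) (p⁻¹ * (q * p * q⁻¹) * (q * p * q⁻¹) * p * t⁻¹) := by
        refine Commute.mul_right (Commute.mul_right (Commute.mul_right (Commute.mul_right
          ?_ ?_) ?_) ?_) ?_
        · exact hpm.symm.inv_right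
        · exact hgm.symm
        · exact hgm.symm
        · exact hpm.symm
        · exact htm.symm.inv_right
      have hti : t⁻¹ * p⁻¹ = p⁻¹ * t⁻¹ := by
        rw [← mul_inv_rev, ← mul_inv_rev, h1]
      calc p * (t ^ m)⁻¹ * (p⁻¹ * (q * p * q⁻¹) * (q * p * q⁻¹) * p * t⁻¹) *
            (p * (t ^ m)⁻¹)⁻¹
          = p * ((t ^ m)⁻¹ * (p⁻¹ * (q * p * q⁻¹) * (q * p * q⁻¹) * p * t⁻¹)) *
            (p * (t ^ m)⁻¹)⁻¹ := by group
        _ = p * ((p⁻¹ * (q * p * q⁻¹) * (q * p * q⁻¹) * p * t⁻¹) * (t ^ m)⁻¹) *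
            (p * (t ^ m)⁻¹)⁻¹ := by rw [hx.eq]
        _ = (q * p * q⁻¹) * (q * p * q⁻¹) * p * (t⁻¹ * p⁻¹) := by group
        _ = _ := by rw [hti]; group
    have h10 : (q * p * q⁻¹) * (q * p * q⁻¹) * t⁻¹ ∈ K := by
      rw [← h9]
      exact K.mul_mem (K.mul_mem h6 hc) (K.inv_mem h6)
    have h11 : ((q * p * q⁻¹) * (q * p * q⁻¹) * t⁻¹)⁻¹ * ((q * p * q⁻¹ * t) * (q * p * q⁻¹ * t))
        = t ^ 3 := by
      have e1 : (q * p * q⁻¹ * t) * (q * p * q⁻¹ * t)
          = (q * p * q⁻¹) * (t * (q * p * q⁻¹)) * t := by group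
      rw [e1, ← hg.eq]
      simp only [pow_succ, pow_zero]
      group
    rw [← h11]
    exact K.mul_mem (K.inv_mem h10) (K.mul_mem hv hv)

end Pool.Agent.H26R2
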