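import Pool.Agent.H26R2.Basic

/-!
An action on `ℤ × Fin 3 × H` of a group generated by `p, q, t, c, d`, for a group `H` with
eight elements satisfying the surface relation.
-/

set_option autoImplicit false
set_option linter.unusedSimpArgs false
set_option linter.unnecessarySeqFocus false
set_option linter.unusedSectionVars false

namespace Pool.Agent.H26R2

/-- eight elements satisfying the surface relation of genus four -/
structure Oct (H : Type) [Group H] where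
  /-- element -/
  u1 : H
  /-- element -/
  v1 : H
  /-- element -/
  u2 : H
  /-- element -/
  v2 : H
  /-- element -/
  x1 : H
  /-- element -/
  y1 : H
  /-- element -/
  x2 : H
  /-- element -/
  y2 : H
  /-- the relation -/
  rel : cm u1 v1 * cm u2 v2 * (cm x1 y1 * cm x2 y2) = 1

variable {H : Type} [Group H]

/-- monomial permutations -/
def mono (σ : Equiv.Perm (Fin 3)) (s : Fin 3 → ℤ) (w : Fin 3 → H) :
    Equiv.Perm (ℤ × Fin 3 × H) where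
  toFun z := (z.1 + s z.2.1, σ z.2.1, w z.2.1 * z.2.2)
  invFun z := (z.1 - s (σ.symm z.2.1), σ.symm z.2.1, (w (σ.symm z.2.1))⁻¹ * z.2.2)
  left_inv z := by simp
  right_inv z := by simp

theorem mono_apply (σ : Equiv.Perm (Fin 3)) (s : Fin 3 → ℤ) (w : Fin 3 → H) (k i h) :
    mono σ s w (k, i, h) = (k + s i, σ i, w i * h) := rfl

theorem mono_inv_apply (σ : Equiv.Perm (Fin 3)) (s : Fin 3 → ℤ) (w : Fin 3 → H) (k i h) :
    (mono σ s w)⁻¹ (k, i, h) = (k - s (σ.symm i), σ.symm i, (w (σ.symm i))⁻¹ * h) := rfl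

theorem mono_ext {f g : Equiv.Perm (ℤ × Fin 3 × H)}
    (h0 : ∀ k h, f (k, 0, h) = g (k, 0, h))
    (h1 : ∀ k h, f (k, 1, h) = g (k, 1, h))
    (h2 : ∀ k h, f (k, 2, h) = g (k, 2, h)) : f = g := by
  apply Equiv.ext
  rintro ⟨k, i, h⟩
  fin_cases i
  · exact h0 k h
  · exact h1 k h
  · exact h2 k h

namespace Oct

variable (O : Oct H)

/-- `c₃` -/
def C3 : H := cm O.u1 O.v1 * cm O.u2 O.v2

theorem C3_eq : O.C3 = (cm O.x1 O.y1 * cm O.x2 O.y2)⁻¹ := eq_inv_of_mul_eq_one_left O.rel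

/-- shift -/
def t : Equiv.Perm (ℤ × Fin 3 × H) := mono 1 (fun _ => 1) (fun _ => 1)

/-- rotation -/
def om : Equiv.Perm (ℤ × Fin 3 × H) := mono (finRotate 3) (fun _ => 0) ![1, 1, O.C3]

/-- `γ₁` -/
def g1 : Equiv.Perm (ℤ × Fin 3 × H) := mono (Equiv.swap 1 2) ![-1, 0, 1]
  ![O.v1, (cm O.u2 O.v2)⁻¹, O.v2 * O.u2 * O.v2 * O.u2⁻¹ * O.v2⁻¹]

/-- `p` -/
def p : Equiv.Perm (ℤ × Fin 3 × H) := mono (Equiv.swap 0 1) ![-1, 0, 1]
  ![O.v1, cm O.u1 O.v1, O.v2 * O.u2 * O.v2 * O.u2⁻¹ * O.v2⁻¹]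

/-- `c` -/
def c : Equiv.Perm (ℤ × Fin 3 × H) := mono (Equiv.swap 0 2) (fun _ => 0)
  ![O.C3⁻¹ * O.y2, O.C3⁻¹ * (O.y2 * O.x2 * O.y2 * O.x2⁻¹ * O.y2⁻¹) * O.C3,
    O.x1 * O.y1 * O.x1⁻¹ * O.y2⁻¹ * O.C3]

/-- `d` -/
def d : Equiv.Perm (ℤ × Fin 3 × H) := mono (finRotate 3)⁻¹ (fun _ => 0)
  ![O.C3⁻¹ * O.y2 * O.x1⁻¹, O.x2⁻¹ * O.y1 * O.x1 * O.y1⁻¹ * O.x1⁻¹,
    O.x1 * O.y1 * O.x1⁻¹ * O.x1⁻¹ * O.y2⁻¹ * O.C3]

theorem t_apply (k i) (h : H) : t (k, i, h) = (k + 1, i, h) := by simp [t, mono_apply]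
theorem ti_apply (k i) (h : H) : t⁻¹ (k, i, h) = (k - 1, i, h) := by
  rw [Equiv.Perm.inv_eq_iff_eq, t_apply, sub_add_cancel]

theorem om0 (k h) : O.om (k, 0, h) = (k, 1, h) := by simp [om, mono_apply]
theorem om1 (k h) : O.om (k, 1, h) = (k, 2, h) := by simp [om, mono_apply]
theorem om2 (k h) : O.om (k, 2, h) = (k, 0, O.C3 * h) := by simp [om, mono_apply]
theorem omi1 (k h) : O.om⁻¹ (k, 1, h) = (k, 0, h) := by
  rw [Equiv.Perm.inv_eq_iff_eq, om0]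
theorem omi2 (k h) : O.om⁻¹ (k, 2, h) = (k, 1, h) := by
  rw [Equiv.Perm.inv_eq_iff_eq, om1]
theorem omi0 (k h) : O.om⁻¹ (k, 0, h) = (k, 2, O.C3⁻¹ * h) := by
  rw [Equiv.Perm.inv_eq_iff_eq, om2, mul_inv_cancel_left]

theorem g10 (k h) : O.g1 (k, 0, h) = (k - 1, 0, O.v1 * h) := by
  simp [g1, mono_apply, Equiv.swap_apply_def, sub_eq_add_neg]
theorem g11 (k h) : O.g1 (k, 1, h) = (k, 2, (cm O.u2 O.v2)⁻¹ * h) := by
  simp [g1, mono_apply]
theorem g12 (k h) : O.g1 (k, 2, h) = (k + 1, 1, O.v2 * O.u2 * O.v2 * O.u2⁻¹ * O.v2⁻¹ * h) := by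
  simp [g1, mono_apply]
theorem g1i0 (k h) : O.g1⁻¹ (k, 0, h) = (k + 1, 0, O.v1⁻¹ * h) := by
  rw [Equiv.Perm.inv_eq_iff_eq, g10, mul_inv_cancel_left, add_sub_cancel_right]
theorem g1i2 (k h) : O.g1⁻¹ (k, 2, h) = (k, 1, cm O.u2 O.v2 * h) := by
  rw [Equiv.Perm.inv_eq_iff_eq, g11, inv_mul_cancel_left]
theorem g1i1 (k h) : O.g1⁻¹ (k, 1, h) =
    (k - 1, 2, (O.v2 * O.u2 * O.v2 * O.u2⁻¹ * O.v2⁻¹)⁻¹ * h) := by
  rw [Equiv.Perm.inv_eq_iff_eq, g12, mul_inv_cancel_left, sub_add_cancel]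

theorem p0 (k h) : O.p (k, 0, h) = (k - 1, 1, O.v1 * h) := by
  simp [p, mono_apply, sub_eq_add_neg]
theorem p1 (k h) : O.p (k, 1, h) = (k, 0, cm O.u1 O.v1 * h) := by
  simp [p, mono_apply]
theorem p2 (k h) : O.p (k, 2, h) = (k + 1, 2, O.v2 * O.u2 * O.v2 * O.u2⁻¹ * O.v2⁻¹ * h) := by
  simp [p, mono_apply, Equiv.swap_apply_def]
theorem pi1 (k h) : O.p⁻¹ (k, 1, h) = (k + 1, 0, O.v1⁻¹ * h) := by
  rw [Equiv.Perm.inv_eq_iff_eq, p0, mul_inv_cancel_left, add_sub_cancel_right]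
theorem pi0 (k h) : O.p⁻¹ (k, 0, h) = (k, 1, (cm O.u1 O.v1)⁻¹ * h) := by
  rw [Equiv.Perm.inv_eq_iff_eq, p1, mul_inv_cancel_left]
theorem pi2 (k h) : O.p⁻¹ (k, 2, h) =
    (k - 1, 2, (O.v2 * O.u2 * O.v2 * O.u2⁻¹ * O.v2⁻¹)⁻¹ * h) := by
  rw [Equiv.Perm.inv_eq_iff_eq, p2, mul_inv_cancel_left, sub_add_cancel]

theorem c0 (k h) : O.c (k, 0, h) = (k, 2, O.C3⁻¹ * O.y2 * h) := by
  simp [c, mono_apply]
theorem c1 (k h) : O.c (k, 1, h) =
    (k, 1, O.C3⁻¹ * (O.y2 * O.x2 * O.y2 * O.x2⁻¹ * O.y2⁻¹) * O.C3 * h) := by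
  simp [c, mono_apply, Equiv.swap_apply_def]
theorem c2 (k h) : O.c (k, 2, h) = (k, 0, O.x1 * O.y1 * O.x1⁻¹ * O.y2⁻¹ * O.C3 * h) := by
  simp [c, mono_apply]
theorem ci2 (k h) : O.c⁻¹ (k, 2, h) = (k, 0, (O.C3⁻¹ * O.y2)⁻¹ * h) := by
  rw [Equiv.Perm.inv_eq_iff_eq, c0, mul_inv_cancel_left]
theorem ci1 (k h) : O.c⁻¹ (k, 1, h) =
    (k, 1, (O.C3⁻¹ * (O.y2 * O.x2 * O.y2 * O.x2⁻¹ * O.y2⁻¹) * O.C3)⁻¹ * h) := by
  rw [Equiv.Perm.inv_eq_iff_eq, c1, mul_inv_cancel_left]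
theorem ci0 (k h) : O.c⁻¹ (k, 0, h) =
    (k, 2, (O.x1 * O.y1 * O.x1⁻¹ * O.y2⁻¹ * O.C3)⁻¹ * h) := by
  rw [Equiv.Perm.inv_eq_iff_eq, c2, mul_inv_cancel_left]

theorem d0 (k h) : O.d (k, 0, h) = (k, 2, O.C3⁻¹ * O.y2 * O.x1⁻¹ * h) := by
  have : (finRotate 3)⁻¹ 0 = 2 := by decide
  simp [d, mono_apply, this]
theorem d1 (k h) : O.d (k, 1, h) = (k, 0, O.x2⁻¹ * O.y1 * O.x1 * O.y1⁻¹ * O.x1⁻¹ * h) := by
  have : (finRotate 3)⁻¹ 1 = 0 := by decide
  simp [d, mono_apply, this]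
theorem d2 (k h) : O.d (k, 2, h) =
    (k, 1, O.x1 * O.y1 * O.x1⁻¹ * O.x1⁻¹ * O.y2⁻¹ * O.C3 * h) := by
  have : (finRotate 3)⁻¹ 2 = 1 := by decide
  simp [d, mono_apply, this]
theorem di2 (k h) : O.d⁻¹ (k, 2, h) = (k, 0, (O.C3⁻¹ * O.y2 * O.x1⁻¹)⁻¹ * h) := by
  rw [Equiv.Perm.inv_eq_iff_eq, d0, mul_inv_cancel_left]
theorem di0 (k h) : O.d⁻¹ (k, 0, h) =
    (k, 1, (O.x2⁻¹ * O.y1 * O.x1 * O.y1⁻¹ * O.x1⁻¹)⁻¹ * h) := by
  rw [Equiv.Perm.inv_eq_iff_eq, d1, mul_inv_cancel_left]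
theorem di1 (k h) : O.d⁻¹ (k, 1, h) =
    (k, 2, (O.x1 * O.y1 * O.x1⁻¹ * O.x1⁻¹ * O.y2⁻¹ * O.C3)⁻¹ * h) := by
  rw [Equiv.Perm.inv_eq_iff_eq, d2, mul_inv_cancel_left]

theorem t_om : t * O.om = O.om * t := by
  apply mono_ext <;> intro k h <;> simp only [Equiv.Perm.mul_apply, t_apply, om0, om1, om2]

theorem t_g1 : t * O.g1 = O.g1 * t := by
  apply mono_ext <;> intro k h <;> simp only [Equiv.Perm.mul_apply, t_apply, g10, g11, g12] <;>
  congr 1 <;> ring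

theorem t_p : t * O.p = O.p * t := by
  apply mono_ext <;> intro k h <;> simp only [Equiv.Perm.mul_apply, t_apply, p0, p1, p2] <;>
  congr 1 <;> ring

theorem t_c : t * O.c = O.c * t := by
  apply mono_ext <;> intro k h <;> simp only [Equiv.Perm.mul_apply, t_apply, c0, c1, c2]

theorem t_d : t * O.d = O.d * t := by
  apply mono_ext <;> intro k h <;> simp only [Equiv.Perm.mul_apply, t_apply, d0, d1, d2]

theorem p_eq : O.p = O.om * O.g1 := by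
  apply mono_ext <;> intro k h <;>
  simp only [Equiv.Perm.mul_apply, p0, p1, p2, g10, g11, g12, om0, om1, om2]
  simp only [C3, cm]
  congr 2
  group

theorem om_c_d : O.om * (O.c * O.d) = O.d * O.c := by
  apply mono_ext <;> intro k h <;>
  simp only [Equiv.Perm.mul_apply, c0, c1, c2, d0, d1, d2, om0, om1, om2] <;>
  congr 2 <;> rw [C3_eq] <;> simp only [cm] <;> group

/-! ### the permutation `q` -/

theorem tz (k : ℤ) (i) (h : H) : (k, i, h) = (t ^ k : Equiv.Perm (ℤ × Fin 3 × H)) (0, i, h) := by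
  induction k using Int.induction_on with
  | zero => simp
  | succ n ih =>
    rw [add_comm, zpow_add, Equiv.Perm.mul_apply, ← ih, zpow_one, t_apply, add_comm]
  | pred n ih =>
    rw [sub_eq_add_neg, add_comm, zpow_add, Equiv.Perm.mul_apply, ← ih, zpow_neg_one, ti_apply]
    congr 1
    ring

/-- `q` on level zero -/
def q0 (i : Fin 3) (h : H) : ℤ × Fin 3 × H := match i with
  | 0 => (0, 0, O.u1⁻¹ * h)
  | 1 => (1, 0, O.u1⁻¹ * O.v1⁻¹ * h)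
  | 2 => (-1, 2, O.v2 * O.u2 * O.v2⁻¹ * O.u2⁻¹ * O.u2⁻¹ * O.v2⁻¹ * h)

/-- `q⁻¹` on level zero -/
def r0 (i : Fin 3) (h : H) : ℤ × Fin 3 × H := match i with
  | 0 => (0, 0, O.u1 * h)
  | 1 => (1, 2, O.v2 * O.u2 * h)
  | 2 => (2, 2, O.v2 * O.u2 * O.v2 * O.u2 * O.v2 * O.u2⁻¹ * O.v2⁻¹ * h)

/-- `t γ₁⁻¹` -/
def T1 : Equiv.Perm (ℤ × Fin 3 × H) := t * O.g1⁻¹

/-- `t p` -/
def T2 : Equiv.Perm (ℤ × Fin 3 × H) := t * O.p

/-- the function `q` -/
def qf (z : ℤ × Fin 3 × H) : ℤ × Fin 3 × H := (O.T1 ^ z.1) (O.q0 z.2.1 z.2.2)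

/-- the function `q⁻¹` -/
def rf (z : ℤ × Fin 3 × H) : ℤ × Fin 3 × H := (O.T2 ^ z.1) (O.r0 z.2.1 z.2.2)

theorem qf_zero (i h) : O.qf (0, i, h) = O.q0 i h := by simp [qf]
theorem rf_zero (i h) : O.rf (0, i, h) = O.r0 i h := by simp [rf]

theorem qf_t (z) : O.qf (t z) = O.T1 (O.qf z) := by
  obtain ⟨k, i, h⟩ := z
  rw [t_apply]
  simp only [qf]
  rw [add_comm, zpow_add, zpow_one, Equiv.Perm.mul_apply]

theorem rf_t (z) : O.rf (t z) = O.T2 (O.rf z) := by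
  obtain ⟨k, i, h⟩ := z
  rw [t_apply]
  simp only [rf]
  rw [add_comm, zpow_add, zpow_one, Equiv.Perm.mul_apply]

theorem perm_apply_inv {Ω : Type*} (a : Equiv.Perm Ω) (z : Ω) : a (a⁻¹ z) = z := by
  rw [← Equiv.Perm.mul_apply, mul_inv_cancel, Equiv.Perm.one_apply]

theorem perm_inv_apply {Ω : Type*} (a : Equiv.Perm Ω) (z : Ω) : a⁻¹ (a z) = z := by
  rw [← Equiv.Perm.mul_apply, inv_mul_cancel, Equiv.Perm.one_apply]

/-- extension of an intertwining relation to powers -/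
theorem zpow_ext {Ω : Type*} (f : Ω → Ω) (a b : Equiv.Perm Ω) (hab : ∀ z, f (a z) = b (f z))
    (k : ℤ) (z : Ω) : f ((a ^ k) z) = (b ^ k) (f z) := by
  have hinv : ∀ z, f (a⁻¹ z) = b⁻¹ (f z) := fun z => by
    rw [Equiv.Perm.eq_inv_iff_eq, ← hab, perm_apply_inv]
  induction k using Int.induction_on generalizing z with
  | zero => simp
  | succ n ih =>
    rw [add_comm, zpow_add, zpow_add, Equiv.Perm.mul_apply, Equiv.Perm.mul_apply, zpow_one,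
      zpow_one, hab, ih]
  | pred n ih =>
    rw [sub_eq_add_neg, add_comm, zpow_add, zpow_add, Equiv.Perm.mul_apply, Equiv.Perm.mul_apply,
      zpow_neg_one, zpow_neg_one, hinv, ih]

/-- two functions agreeing on level zero and intertwining `t` in the same way are equal -/
theorem fun_ext {f g : ℤ × Fin 3 × H → ℤ × Fin 3 × H} (b : Equiv.Perm (ℤ × Fin 3 × H))
    (hf : ∀ z, f (t z) = b (f z)) (hg : ∀ z, g (t z) = b (g z))
    (h0 : ∀ h, f (0, 0, h) = g (0, 0, h)) (h1 : ∀ h, f (0, 1, h) = g (0, 1, h))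
    (h2 : ∀ h, f (0, 2, h) = g (0, 2, h)) (z) : f z = g z := by
  obtain ⟨k, i, h⟩ := z
  rw [tz, zpow_ext f t b hf, zpow_ext g t b hg]
  congr 1
  fin_cases i
  · exact h0 h
  · exact h1 h
  · exact h2 h

theorem T1_apply (z) : O.T1 z = t (O.g1⁻¹ z) := rfl
theorem T2_apply (z) : O.T2 z = t (O.p z) := rfl
theorem T1i_apply (z) : O.T1⁻¹ z = O.g1 (t⁻¹ z) := by simp [T1]
theorem T2i_apply (z) : O.T2⁻¹ z = O.p⁻¹ (t⁻¹ z) := by simp [T2]

theorem T1_g1 : O.T1 * O.g1 = O.g1 * O.T1 := by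
  rw [T1, mul_assoc, inv_mul_cancel, mul_one, ← mul_assoc, ← t_g1, mul_assoc, mul_inv_cancel,
    mul_one]

theorem T2_p : O.T2 * O.p = O.p * O.T2 := by
  rw [T2, mul_assoc, ← mul_assoc O.p, ← t_p, mul_assoc]

theorem qf_neg (i h) : O.qf (-1, i, h) = O.T1⁻¹ (O.q0 i h) := by simp [qf]
theorem qf_one (i h) : O.qf (1, i, h) = O.T1 (O.q0 i h) := by simp [qf]
theorem qf_two (i h) : O.qf (2, i, h) = O.T1 (O.T1 (O.q0 i h)) := by
  simp only [qf]
  rw [show (2 : ℤ) = 1 + 1 from rfl, zpow_add, zpow_one, Equiv.Perm.mul_apply]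
theorem rf_neg (i h) : O.rf (-1, i, h) = O.T2⁻¹ (O.r0 i h) := by simp [rf]
theorem rf_one (i h) : O.rf (1, i, h) = O.T2 (O.r0 i h) := by simp [rf]

theorem qf_p (z) : O.qf (O.p z) = O.g1 (O.qf z) := by
  refine fun_ext O.T1 (f := fun z => O.qf (O.p z)) (g := fun z => O.g1 (O.qf z)) ?_ ?_ ?_ ?_ ?_ z
  · intro z
    have : O.p (t z) = t (O.p z) := by
      rw [← Equiv.Perm.mul_apply, ← t_p]; rfl
    simp only [this, qf_t]
  · intro z
    simp only [qf_t]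
    rw [← Equiv.Perm.mul_apply, ← T1_g1]; rfl
  · intro h
    simp only [p0, zero_sub, qf_neg, qf_zero, T1i_apply, q0, ti_apply, sub_self, g10]
    congr 3
    group
  · intro h
    simp only [p1, zero_sub, qf_neg, qf_zero, T1i_apply, q0, ti_apply, sub_self, g10]
    congr 2
    simp only [cm]
    group
  · intro h
    simp only [p2, zero_add, qf_one, qf_zero, T1_apply, q0, t_apply, g12, g1i2]
    simp only [neg_add_cancel]
    congr 2
    simp only [cm]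
    group

theorem rf_g1 (z) : O.rf (O.g1 z) = O.p (O.rf z) := by
  refine fun_ext O.T2 (f := fun z => O.rf (O.g1 z)) (g := fun z => O.p (O.rf z)) ?_ ?_ ?_ ?_ ?_ z
  · intro z
    have : O.g1 (t z) = t (O.g1 z) := by
      rw [← Equiv.Perm.mul_apply, ← t_g1]; rfl
    simp only [this, rf_t]
  · intro z
    simp only [rf_t]
    rw [← Equiv.Perm.mul_apply, ← T2_p]; rfl
  · intro h
    simp only [g10, zero_sub, rf_neg, rf_zero, T2i_apply, r0, ti_apply, sub_self, p0, pi0]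
    congr 2
    simp only [cm]
    group
  · intro h
    simp only [g11, zero_sub, rf_neg, rf_zero, T2i_apply, r0, ti_apply, sub_self, p2, pi0]
    congr 2
    simp only [cm]
    group
  · intro h
    simp only [g12, zero_add, rf_one, rf_zero, T2_apply, r0, t_apply, p2, pi0]
    congr 2
    group

theorem rf_qf (z) : O.rf (O.qf z) = z := by
  refine fun_ext t (f := fun z => O.rf (O.qf z)) (g := fun z => z) ?_ ?_ ?_ ?_ ?_ z
  · intro z
    simp only [qf_t, T1_apply, rf_t]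
    have h := O.rf_g1 (O.g1⁻¹ (O.qf z))
    rw [perm_apply_inv] at h
    rw [h]
    rw [T2_apply]
  · intro z; rfl
  · intro h
    simp only [qf_zero, q0, rf_zero, r0]
    congr 2
    group
  · intro h
    simp only [qf_zero, q0, rf_one, r0, T2_apply, p0, t_apply]
    congr 2
    group
  · intro h
    simp only [qf_zero, q0, rf_neg, r0, T2i_apply, pi2, ti_apply]
    congr 2
    group

theorem qf_rf (z) : O.qf (O.rf z) = z := by
  refine fun_ext t (f := fun z => O.qf (O.rf z)) (g := fun z => z) ?_ ?_ ?_ ?_ ?_ z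
  · intro z
    simp only [rf_t, T2_apply, qf_t, qf_p, T1_apply, perm_inv_apply]
  · intro z; rfl
  · intro h
    simp only [qf_zero, q0, rf_zero, r0]
    congr 2
    group
  · intro h
    simp only [rf_zero, r0, qf_one, q0, T1_apply, g1i2, t_apply]
    congr 2
    simp only [cm]
    group
  · intro h
    simp only [rf_zero, r0, qf_two, q0, T1_apply, g1i2, g1i1, t_apply]
    congr 2
    simp only [cm]
    group

/-- the permutation `q` -/
def q : Equiv.Perm (ℤ × Fin 3 × H) where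
  toFun := O.qf
  invFun := O.rf
  left_inv := O.rf_qf
  right_inv := O.qf_rf

theorem q_apply (z) : O.q z = O.qf z := rfl
theorem qi_apply (z) : O.q⁻¹ z = O.rf z := rfl

theorem q_p : O.q * O.p = O.g1 * O.q := Equiv.ext fun z => O.qf_p z

theorem q_t : O.q * t = t * O.g1⁻¹ * O.q := Equiv.ext fun z => O.qf_t z

theorem t_q : t * O.q = O.q * O.p * t := by
  have h1 : O.g1 * O.q * t = t * O.q := by
    rw [mul_assoc, q_t, ← mul_assoc, ← mul_assoc, ← t_g1, mul_assoc t, mul_inv_cancel, mul_one]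
  rw [q_p, h1]

theorem p_q : O.p * O.q = O.om * (O.q * O.p) := by
  rw [q_p, ← mul_assoc, ← p_eq]

theorem rel_pqcd : cm O.p O.q * cm O.c O.d = 1 := by
  have h1 : cm O.p O.q = O.om := by
    rw [cm, p_q]; group
  have h2 : cm O.c O.d = O.om⁻¹ := by
    have h := O.om_c_d
    have : O.c * O.d = O.om⁻¹ * (O.d * O.c) := by rw [← h]; group
    rw [cm, this]; group
  rw [h1, h2, mul_inv_cancel]

end Oct

end Pool.Agent.H26R2
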