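import Pool.Agent.H26R2.Cent
import Pool.Agent.H26R2.Omega
import Pool.Agent.H26R2.Closure

/-!
A non-separable surface subgroup of `Out(π₁(S₄))`.
-/

set_option autoImplicit false
set_option linter.unusedSimpArgs false
set_option linter.unnecessarySeqFocus false

namespace Pool.Agent.H26R2

open W

/-- the eight generators of the surface group of genus four -/
def O : Oct (SG 4) where
  u1 := ge 0 0
  v1 := ge 0 1
  u2 := ge 1 0
  v2 := ge 1 1
  x1 := ge 2 0
  y1 := ge 2 1
  x2 := ge 3 0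
  y2 := ge 3 1
  rel := sg_rel

/-- the permutation group -/
abbrev PP : Type := Equiv.Perm (ℤ × Fin 3 × SG 4)

/-- the homomorphism from `W` to the permutations -/
def th : W →* PP := FreeGroup.lift ![O.p, O.q, O.c, O.d]

theorem th_a : th a = O.p := by simp [th, a]
theorem th_b : th b = O.q := by simp [th, b]
theorem th_c : th c = O.c := by simp [th, c]
theorem th_d : th d = O.d := by simp [th, d]

theorem th_D : th D = 1 := by
  rw [D, map_mul, map_cm, map_cm, th_a, th_b, th_c, th_d, O.rel_pqcd]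

/-- compatible pairs -/
def S : Subgroup (Ast × PP) where
  carrier := {x | ∀ w, th (x.1.1 w) = x.2 * th w * x.2⁻¹}
  mul_mem' := by
    intro x y hx hy w
    have h1 : (x * y).1.1 w = x.1.1 (y.1.1 w) := rfl
    rw [h1, hx, hy]
    simp only [Prod.snd_mul, mul_inv_rev]
    group
  one_mem' := by
    intro w
    simp
  inv_mem' := by
    intro x hx w
    have h := hx (x.1.1⁻¹ w)
    rw [MulAut.apply_inv_self] at h
    have h1 : (x⁻¹).1.1 w = x.1.1⁻¹ w := rfl
    rw [h1, h]
    simp only [Prod.snd_inv]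
    group

/-- a compatible pair from the values on generators -/
def mkS (f : Ast) (g : PP) (ha : th (f.1 a) = g * O.p * g⁻¹) (hb : th (f.1 b) = g * O.q * g⁻¹)
    (hc : th (f.1 c) = g * O.c * g⁻¹) (hd : th (f.1 d) = g * O.d * g⁻¹) : S :=
  ⟨(f, g), by
    have : th.comp f.1.toMonoidHom = (MulAut.conj g).toMonoidHom.comp th := by
      apply hom_ext
      · simpa [th_a] using ha
      · simpa [th_b] using hb
      · simpa [th_c] using hc
      · simpa [th_d] using hd
    intro w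
    exact DFunLike.congr_fun this w⟩

/-- the element `p` -/
def eP : S := mkS ⟨pA, pA_D⟩ O.p
  (by simp only [pA_a, map_mul, map_inv, th_D, th_a, th_b, th_c, th_d]; group)
  (by simp only [pA_b, map_mul, map_inv, th_D, th_a, th_b, th_c, th_d]; group)
  (by simp only [pA_c, map_mul, map_inv, th_D, th_a, th_b, th_c, th_d]; group)
  (by simp only [pA_d, map_mul, map_inv, th_D, th_a, th_b, th_c, th_d]; group)

/-- the element `q` -/
def eQ : S := mkS ⟨pB, pB_D⟩ O.q
  (by simp only [pB_a, map_mul, map_inv, th_D, th_a, th_b, th_c, th_d]; group)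
  (by simp only [pB_b, map_mul, map_inv, th_D, th_a, th_b, th_c, th_d]; group)
  (by simp only [pB_c, map_mul, map_inv, th_D, th_a, th_b, th_c, th_d]; group)
  (by simp only [pB_d, map_mul, map_inv, th_D, th_a, th_b, th_c, th_d]; group)

/-- the element `c` -/
def eC : S := mkS ⟨pC, pC_D⟩ O.c
  (by simp only [pC_a, map_mul, map_inv, th_D, th_a, th_b, th_c, th_d]; group)
  (by simp only [pC_b, map_mul, map_inv, th_D, th_a, th_b, th_c, th_d]; group)
  (by simp only [pC_c, map_mul, map_inv, th_D, th_a, th_b, th_c, th_d]; group)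
  (by simp only [pC_d, map_mul, map_inv, th_D, th_a, th_b, th_c, th_d]; group)

/-- the element `d` -/
def eD : S := mkS ⟨pD, pD_D⟩ O.d
  (by simp only [pD_a, map_mul, map_inv, th_D, th_a, th_b, th_c, th_d]; group)
  (by simp only [pD_b, map_mul, map_inv, th_D, th_a, th_b, th_c, th_d]; group)
  (by simp only [pD_c, map_mul, map_inv, th_D, th_a, th_b, th_c, th_d]; group)
  (by simp only [pD_d, map_mul, map_inv, th_D, th_a, th_b, th_c, th_d]; group)

/-- the element `t` -/
def eT : S := mkS ⟨pT, pT_D⟩ Oct.t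
  (by simp only [pT_a, map_mul, map_inv, th_D, th_a, th_b, th_c, th_d]
      rw [O.t_p]; group)
  (by simp only [pT_b, map_mul, map_inv, th_D, th_a, th_b, th_c, th_d]
      rw [O.t_q]; group)
  (by simp only [pT_c, map_mul, map_inv, th_D, th_a, th_b, th_c, th_d]
      rw [O.t_c]; group)
  (by simp only [pT_d, map_mul, map_inv, th_D, th_a, th_b, th_c, th_d]
      rw [O.t_d]; group)

theorem eT_eP : eT * eP = eP * eT := by
  apply Subtype.ext
  apply Prod.ext
  · exact Subtype.ext T_A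
  · exact O.t_p

theorem eT_eQ : eT * eQ = eQ * eP * eT := by
  apply Subtype.ext
  apply Prod.ext
  · exact Subtype.ext T_B
  · exact O.t_q

/-- second projection -/
def toPerm : S →* PP := (MonoidHom.snd Ast PP).comp S.subtype

/-- the outer automorphism group of the surface group of genus four -/
abbrev Out4 : Type := MulAut (SG 4) ⧸ Inn (SG 4)

/-- the homomorphism to the outer automorphism group -/
def toOut : S →* Out4 := (QuotientGroup.mk' (Inn (SG 4))).comp
  (dbl.comp ((MonoidHom.fst Ast PP).comp S.subtype))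

theorem toPerm_P : toPerm eP = O.p := rfl
theorem toPerm_Q : toPerm eQ = O.q := rfl
theorem toPerm_C : toPerm eC = O.c := rfl
theorem toPerm_D : toPerm eD = O.d := rfl
theorem toPerm_T : toPerm eT = Oct.t := rfl

/-- An element of `S` which is trivial in `Out` has a permutation commuting with `th W`. -/
theorem commute_of_toOut (s : S) (h : toOut s = 1) (w : W) : Commute (toPerm s) (th w) := by
  have h1 : dbl s.1.1 ∈ Inn (SG 4) := by
    have : (QuotientGroup.mk' (Inn (SG 4))) (dbl s.1.1) = 1 := h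
    rwa [QuotientGroup.mk'_apply, QuotientGroup.eq_one_iff] at this
  obtain ⟨u, hu, huD⟩ := inner_of_dbl_inner s.1.1 h1
  obtain ⟨i, hi⟩ := commute_D huD
  have h2 := s.2 w
  have h3 : th (s.1.1.1 w) = th w := by
    rw [hu, map_mul, map_mul, map_inv, hi, map_zpow, th_D]
    simp
  rw [h3] at h2
  have h4 : th w = toPerm s * th w * (toPerm s)⁻¹ := h2
  rw [Commute, SemiconjBy]
  rw [eq_mul_inv_iff_mul_eq] at h4
  exact h4.symm

/-! ### the surface relation in `Out` -/

/-- the element `E` -/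
def eEout : Out4 := QuotientGroup.mk' (Inn (SG 4)) (dbl ⟨pE, pE_D⟩)

theorem conjD_out : QuotientGroup.mk' (Inn (SG 4)) (dbl ⟨MulAut.conj D, by
    change MulAut.conj D D = D
    simp⟩) = 1 := by
  rw [QuotientGroup.mk'_apply, QuotientGroup.eq_one_iff, mem_Inn]
  refine ⟨i0 D, ?_⟩
  have : (dbl ⟨MulAut.conj D, by
    change MulAut.conj D D = D
    simp⟩).toMonoidHom = (MulAut.conj (i0 D)).toMonoidHom := by
    apply dbl_hom_ext
    · intro w
      simp only [MulEquiv.coe_toMonoidHom, dbl_i0, MulAut.conj_apply, map_mul, map_inv]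
    · intro w
      simp only [MulEquiv.coe_toMonoidHom, dbl_i1, MulAut.conj_apply, map_mul, map_inv, i0_D]
  ext x
  exact DFunLike.congr_fun this x

theorem out_AB : toOut eP * toOut eQ = eEout * (toOut eQ * toOut eP) := by
  have h : (⟨MulAut.conj D, by
    change MulAut.conj D D = D
    simp⟩ : Ast) * (⟨pA, pA_D⟩ * ⟨pB, pB_D⟩) = ⟨pE, pE_D⟩ * (⟨pB, pB_D⟩ * ⟨pA, pA_D⟩) :=
    Subtype.ext AB
  have h2 := congrArg (fun x => QuotientGroup.mk' (Inn (SG 4)) (dbl x)) h
  simp only [map_mul] at h2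
  rw [conjD_out, one_mul] at h2
  exact h2

theorem out_CD : eEout * (toOut eC * toOut eD) = toOut eD * toOut eC := by
  have h : (⟨MulAut.conj D, by
    change MulAut.conj D D = D
    simp⟩ : Ast) * (⟨pE, pE_D⟩ * (⟨pC, pC_D⟩ * ⟨pD, pD_D⟩)) = ⟨pD, pD_D⟩ * ⟨pC, pC_D⟩ :=
    Subtype.ext CD
  have h2 := congrArg (fun x => QuotientGroup.mk' (Inn (SG 4)) (dbl x)) h
  simp only [map_mul] at h2
  rw [conjD_out, one_mul] at h2
  exact h2

/-- the eight words in `S` -/
def gens : Fin 4 × Fin 2 → S := fun x =>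
  ![![wu1 eP eQ, wv1 eP eQ * eT], ![wu2 eP eQ, wv2 eP eQ * eT⁻¹],
    ![wx1 eC eD, wy1 eC eD], ![wx2 eC eD, wy2 eC eD]] x.1 x.2

theorem gens_rel (T : Type) [Group T] (f : S →* T)
    (h : cm (f eP) (f eQ) * cm (f eC) (f eD) = 1) :
    cm (f (gens (0, 0))) (f (gens (0, 1))) * cm (f (gens (1, 0))) (f (gens (1, 1))) *
        (cm (f (gens (2, 0))) (f (gens (2, 1))) * cm (f (gens (3, 0))) (f (gens (3, 1)))) = 1 := by
  simp only [← map_cm, ← map_mul]
  have h1 : cm (gens (0, 0)) (gens (0, 1)) * cm (gens (1, 0)) (gens (1, 1)) = cm eP eQ ^ 3 :=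
    ident1 eP eQ eT eT_eP eT_eQ
  have h2 : cm (gens (2, 0)) (gens (2, 1)) * cm (gens (3, 0)) (gens (3, 1)) = cm eC eD ^ 3 :=
    ident2 eC eD
  rw [h1, h2, map_mul, map_pow, map_pow, map_cm, map_cm, eq_inv_of_mul_eq_one_left h]
  simp

/-- the surface group in `Out` -/
def iOut : SG 4 →* Out4 := sgLift (fun x => toOut (gens x)) (gens_rel _ toOut (by
  have h1 : cm (toOut eP) (toOut eQ) = eEout := by rw [cm, out_AB]; group
  have h2 : cm (toOut eC) (toOut eD) = eEout⁻¹ := by
    have : toOut eC * toOut eD = eEout⁻¹ * (toOut eD * toOut eC) := by rw [← out_CD]; group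
    rw [cm, this]; group
  rw [h1, h2, mul_inv_cancel]))

/-- the surface group in the permutation group -/
def iPerm : SG 4 →* PP := sgLift (fun x => toPerm (gens x)) (gens_rel _ toPerm O.rel_pqcd)

theorem iOut_of (x) : iOut (PresentedGroup.of x) = toOut (gens x) :=
  sgLift_of (fun x => toOut (gens x)) _ x

theorem iPerm_of (x) : iPerm (PresentedGroup.of x) = toPerm (gens x) :=
  sgLift_of (fun x => toPerm (gens x)) _ x

theorem lift_exists (h : SG 4) : ∃ s : S, toOut s = iOut h ∧ toPerm s = iPerm h := by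
  obtain ⟨w, rfl⟩ : ∃ w : FreeGroup (Fin 4 × Fin 2), PresentedGroup.mk (rels 4) w = h :=
    PresentedGroup.mk_surjective (rels 4) h
  refine ⟨FreeGroup.lift gens w, ?_, ?_⟩
  · have : toOut.comp (FreeGroup.lift gens) = iOut.comp (PresentedGroup.mk (rels 4)) := by
      ext x
      simp only [MonoidHom.comp_apply, FreeGroup.lift_apply_of]
      exact (iOut_of x).symm
    exact DFunLike.congr_fun this w
  · have : toPerm.comp (FreeGroup.lift gens) = iPerm.comp (PresentedGroup.mk (rels 4)) := by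
      refine FreeGroup.ext_hom _ _ fun x => ?_
      simp only [MonoidHom.comp_apply, FreeGroup.lift_apply_of]
      exact (iPerm_of x).symm
    exact DFunLike.congr_fun this w

/-! ### evaluation -/

theorem qpq : O.q * O.p * O.q⁻¹ = O.g1 := by rw [O.q_p]; group

theorem om_eq : O.om = O.p * O.q * O.p⁻¹ * O.q⁻¹ := by rw [O.p_q]; group

theorem ev_u1 (h) : wu1 O.p O.q (0, 0, h) = (0, 0, O.u1 * h) := by
  rw [wu1, Oct.qi_apply, Oct.rf_zero, Oct.r0]

theorem ev_v1 (h) : (wv1 O.p O.q * Oct.t : PP) (0, 0, h) = (0, 0, O.v1 * h) := by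
  rw [wv1, qpq, Equiv.Perm.mul_apply, Oct.t_apply, Oct.g10]
  simp

theorem ev_u2 (h) : wu2 O.p O.q (0, 0, h) = (0, 0, O.u2 * h) := by
  have e : wu2 O.p O.q = O.g1 * O.p⁻¹ * O.g1⁻¹ * O.p⁻¹ * O.q⁻¹ * O.om := by
    rw [om_eq, ← qpq, wu2]; group
  rw [e]
  simp only [Equiv.Perm.mul_apply, Oct.om0, Oct.qi_apply, Oct.rf_zero, Oct.r0, Oct.pi2, Oct.g1i2,
    Oct.pi1, Oct.g10]
  simp only [sub_self, zero_add]
  congr 2
  simp only [cm]
  group

theorem ev_v2 (h) : (wv2 O.p O.q * Oct.t⁻¹ : PP) (0, 0, h) = (0, 0, O.v2 * h) := by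
  have e : wv2 O.p O.q = O.om⁻¹ * O.g1 * O.g1 * O.om := by
    rw [om_eq, ← qpq, wv2]; group
  rw [e]
  simp only [Equiv.Perm.mul_apply, Oct.ti_apply, Oct.om0, Oct.g11, Oct.g12, Oct.omi1]
  simp only [zero_sub, neg_add_cancel]
  congr 2
  simp only [cm]
  group

theorem ev_x1 (h) : wx1 O.c O.d (0, 0, h) = (0, 0, O.x1 * h) := by
  rw [wx1, Equiv.Perm.mul_apply, Oct.c0, Oct.di2]
  congr 2
  group

theorem ev_y1 (h) : wy1 O.c O.d (0, 0, h) = (0, 0, O.y1 * h) := by
  simp only [wy1, Equiv.Perm.mul_apply, Oct.c0, Oct.di2, Oct.c2, Oct.d0, Oct.ci2]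
  congr 2
  group

theorem ev_x2 (h) : wx2 O.c O.d (0, 0, h) = (0, 0, O.x2 * h) := by
  simp only [wx2, Equiv.Perm.mul_apply, Oct.di0, Oct.di1, Oct.c2, Oct.d0, Oct.ci2]
  congr 2
  group

theorem ev_y2 (h) : wy2 O.c O.d (0, 0, h) = (0, 0, O.y2 * h) := by
  simp only [wy2, Equiv.Perm.mul_apply, Oct.di0, Oct.c1, Oct.d1]
  congr 2
  rw [Oct.C3_eq]
  simp only [cm]
  group

theorem tp00 : toPerm (gens (0, 0)) = wu1 O.p O.q := by
  change toPerm (wu1 eP eQ) = _
  simp only [wu1, map_mul, map_inv, toPerm_P, toPerm_Q]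

theorem tp01 : toPerm (gens (0, 1)) = wv1 O.p O.q * Oct.t := by
  change toPerm (wv1 eP eQ * eT) = _
  simp only [wv1, map_mul, map_inv, toPerm_P, toPerm_Q, toPerm_T]

theorem tp10 : toPerm (gens (1, 0)) = wu2 O.p O.q := by
  change toPerm (wu2 eP eQ) = _
  simp only [wu2, map_mul, map_inv, toPerm_P, toPerm_Q]

theorem tp11 : toPerm (gens (1, 1)) = wv2 O.p O.q * Oct.t⁻¹ := by
  change toPerm (wv2 eP eQ * eT⁻¹) = _
  simp only [wv2, map_mul, map_inv, toPerm_P, toPerm_Q, toPerm_T]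

theorem tp20 : toPerm (gens (2, 0)) = wx1 O.c O.d := by
  change toPerm (wx1 eC eD) = _
  simp only [wx1, map_mul, map_inv, toPerm_C, toPerm_D]

theorem tp21 : toPerm (gens (2, 1)) = wy1 O.c O.d := by
  change toPerm (wy1 eC eD) = _
  simp only [wy1, map_mul, map_inv, toPerm_C, toPerm_D]

theorem tp30 : toPerm (gens (3, 0)) = wx2 O.c O.d := by
  change toPerm (wx2 eC eD) = _
  simp only [wx2, map_mul, map_inv, toPerm_C, toPerm_D]

theorem tp31 : toPerm (gens (3, 1)) = wy2 O.c O.d := by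
  change toPerm (wy2 eC eD) = _
  simp only [wy2, map_mul, map_inv, toPerm_C, toPerm_D]

theorem ev (x : Fin 4 × Fin 2) (h : SG 4) :
    toPerm (gens x) (0, 0, h) = (0, 0, PresentedGroup.of x * h) := by
  have h00 := ev_u1 h
  have h01 := ev_v1 h
  have h10 := ev_u2 h
  have h11 := ev_v2 h
  have h20 := ev_x1 h
  have h21 := ev_y1 h
  have h30 := ev_x2 h
  have h31 := ev_y2 h
  rw [← tp00] at h00
  rw [← tp01] at h01
  rw [← tp10] at h10
  rw [← tp11] at h11
  rw [← tp20] at h20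
  rw [← tp21] at h21
  rw [← tp30] at h30
  rw [← tp31] at h31
  obtain ⟨i, j⟩ := x
  match i, j with
  | 0, 0 => exact h00
  | 0, 1 => exact h01
  | 1, 0 => exact h10
  | 1, 1 => exact h11
  | 2, 0 => exact h20
  | 2, 1 => exact h21
  | 3, 0 => exact h30
  | 3, 1 => exact h31

theorem iPerm_ev (g h : SG 4) : iPerm g (0, 0, h) = (0, 0, g * h) := by
  have key : ∀ g : SG 4, ∀ h, iPerm g (0, 0, h) = (0, 0, g * h) := by
    intro g
    induction g using PresentedGroup.induction_on with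
    | _ w =>
      induction w using FreeGroup.induction_on with
      | C1 => intro h; simp
      | of x => intro h; exact (congrFun (congrArg _ (iPerm_of x)) _).trans (ev x h)
      | inv_of x ih =>
        intro h
        rw [map_inv, map_inv, Equiv.Perm.inv_eq_iff_eq, ih]
        simp
      | mul x y hx hy =>
        intro h
        rw [map_mul, map_mul, Equiv.Perm.mul_apply, hy, hx, mul_assoc]
  exact key g h

theorem iPerm_inj : Function.Injective iPerm := by
  intro g g' h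
  have h1 := iPerm_ev g 1
  rw [h, iPerm_ev] at h1
  simpa using h1.symm

theorem iPerm_x1 : iPerm (ge 2 0) = th (wx1 c d) := by
  rw [iPerm_of]
  have h1 : th (wx1 c d) = wx1 O.c O.d := by simp [wx1, th_c, th_d]
  rw [h1]
  rfl

theorem iPerm_y1 : iPerm (ge 2 1) = th (wy1 c d) := by
  rw [iPerm_of]
  have h1 : th (wy1 c d) = wy1 O.c O.d := by simp [wy1, th_c, th_d]
  rw [h1]
  rfl

theorem commute_of_iPerm {g h : SG 4} (hc : Commute (iPerm g) (iPerm h)) : Commute g h := by
  apply iPerm_inj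
  rw [map_mul, map_mul]
  exact hc

theorem iOut_inj : Function.Injective iOut := by
  rw [injective_iff_map_eq_one]
  intro h hh
  obtain ⟨s, hs1, hs2⟩ := lift_exists h
  rw [hh] at hs1
  apply cent
  · apply commute_of_iPerm
    rw [iPerm_x1, ← hs2]
    exact commute_of_toOut s hs1 _
  · apply commute_of_iPerm
    rw [iPerm_y1, ← hs2]
    exact commute_of_toOut s hs1 _

theorem t_comm_wx : Commute (Oct.t : PP) (th (wx1 c d)) := by
  have hc : Commute (Oct.t : PP) O.c := O.t_c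
  have hd : Commute (Oct.t : PP) O.d := O.t_d
  simp only [wx1, map_mul, map_inv, th_c, th_d]
  exact hd.inv_right.mul_right hc

theorem t_comm_wy : Commute (Oct.t : PP) (th (wy1 c d)) := by
  have hc : Commute (Oct.t : PP) O.c := O.t_c
  have hd : Commute (Oct.t : PP) O.d := O.t_d
  simp only [wy1, map_mul, map_inv, th_c, th_d]
  exact ((((hc.inv_right.mul_right hd).mul_right hc).mul_right hc).mul_right hd.inv_right).mul_right
    hc

theorem not_mem : (toOut eT) ^ 3 ∉ iOut.range := by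
  rintro ⟨h, hh⟩
  obtain ⟨s, hs1, hs2⟩ := lift_exists h
  have h1 : toOut (s⁻¹ * eT ^ 3) = 1 := by
    rw [map_mul, map_inv, map_pow, hs1, hh, inv_mul_cancel]
  have h2 := commute_of_toOut _ h1
  have h3 : toPerm (s⁻¹ * eT ^ 3) = (iPerm h)⁻¹ * Oct.t ^ 3 := by
    rw [map_mul, map_inv, map_pow, hs2, toPerm_T]
  rw [h3] at h2
  have aux : ∀ w, Commute (Oct.t : PP) (th w) → Commute (iPerm h) (th w) := by
    intro w hw
    have h4 : Commute (((iPerm h)⁻¹ * Oct.t ^ 3) * (Oct.t ^ 3)⁻¹) (th w) :=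
      (h2 w).mul_left (hw.pow_left 3).inv_left
    rw [mul_inv_cancel_right] at h4
    simpa using h4.inv_left
  have hh1 : h = 1 := by
    apply cent
    · apply commute_of_iPerm
      rw [iPerm_x1]
      exact aux _ t_comm_wx
    · apply commute_of_iPerm
      rw [iPerm_y1]
      exact aux _ t_comm_wy
  have h5 := h2 b
  rw [hh1, map_one, inv_one, one_mul, th_b] at h5
  have h6 := DFunLike.congr_fun h5.eq (0, 0, 1)
  have e3 : ((3 : ℤ), (0 : Fin 3), (1 : SG 4)) = Oct.t (Oct.t (Oct.t (0, 0, 1))) := by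
    rw [Oct.t_apply, Oct.t_apply, Oct.t_apply]
    rfl
  have e4 : (Oct.t ^ 3 : PP) (0, 0, 1) = Oct.t (Oct.t (Oct.t (0, 0, 1))) := rfl
  have e5 : ∀ z, (Oct.t ^ 3 : PP) z = Oct.t (Oct.t (Oct.t z)) := fun z => rfl
  have e6 : O.q (Oct.t (Oct.t (Oct.t (0, 0, 1)))) = O.T1 (O.T1 (O.T1 (O.q0 0 1))) := by
    rw [Oct.q_apply, Oct.qf_t, Oct.qf_t, Oct.qf_t, Oct.qf_zero]
  have e7 : O.q (0, 0, 1) = O.q0 0 1 := by
    rw [Oct.q_apply, Oct.qf_zero]
  rw [Equiv.Perm.mul_apply, Equiv.Perm.mul_apply, e4, e6, e7, e5] at h6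
  simp only [Oct.q0, Oct.T1_apply, Oct.g1i0, Oct.t_apply] at h6
  have h7 := congrArg Prod.fst h6
  simp at h7

theorem closure_mem (K : Subgroup Out4) (hK : K.FiniteIndex) (hle : iOut.range ≤ K) :
    (toOut eT) ^ 3 ∈ K := by
  have hm : ∀ x, toOut (gens x) ∈ K := fun x => hle ⟨PresentedGroup.of x, iOut_of x⟩
  have e1 : toOut eT * toOut eP = toOut eP * toOut eT := by
    rw [← map_mul, eT_eP, map_mul]
  have e2 : toOut eT * toOut eQ = toOut eQ * toOut eP * toOut eT := by
    rw [← map_mul, eT_eQ, map_mul, map_mul]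
  apply cube_mem (toOut eP) (toOut eQ) (toOut eT) e1 e2 K hK
  · have := hm (0, 0)
    have h : toOut (gens (0, 0)) = (toOut eQ)⁻¹ := map_inv _ _
    rw [h] at this
    exact (K.inv_mem_iff).mp this
  · have := hm (0, 1)
    have h : toOut (gens (0, 1)) = toOut (wv1 eP eQ * eT) := rfl
    rw [h] at this
    simpa [wv1] using this
  · have h0 : toOut (wv1 eP eQ * eT) ∈ K := hm (0, 1)
    have h1 : toOut (wv2 eP eQ * eT⁻¹) ∈ K := hm (1, 1)
    have h2 := K.mul_mem (K.mul_mem (K.inv_mem h0) h1) h0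
    have e3 : (wv1 eP eQ * eT)⁻¹ * (wv2 eP eQ * eT⁻¹) * (wv1 eP eQ * eT) =
        eP⁻¹ * (eQ * eP * eQ⁻¹) * (eQ * eP * eQ⁻¹) * eP * eT⁻¹ := by
      have hg : Commute (eQ * eP * eQ⁻¹) eT := by
        have h8 : eT * (eQ * eP * eQ⁻¹) = eQ * eP * eQ⁻¹ * eT := by
          have e1 : eT * (eQ * eP * eQ⁻¹) = (eT * eQ) * eP * eQ⁻¹ := by group
          have e2 : eQ * eP * eT * eP * eQ⁻¹ = eQ * eP * (eT * eP) * eQ⁻¹ := by group
          have e3 : eQ * eP * (eP * eT) * eQ⁻¹ = eQ * eP * eP * (eT * eQ⁻¹) := by group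
          have e4 : eT * eQ⁻¹ = eP⁻¹ * eQ⁻¹ * eT := by
            have : eT * eQ⁻¹ = eP⁻¹ * eQ⁻¹ * (eQ * eP * eT) * eQ⁻¹ := by group
            rw [this, ← eT_eQ]; group
          rw [e1, eT_eQ, e2, eT_eP, e3, e4]; group
        exact h8.symm
      have hp : Commute eP eT := eT_eP.symm
      have hw : wv2 eP eQ = (eQ * eP * eQ⁻¹) * (eP⁻¹ * (eQ * eP * eQ⁻¹) * (eQ * eP * eQ⁻¹) * eP) *
        (eQ * eP * eQ⁻¹)⁻¹ := by
        rw [wv2]; group
      have hx : Commute (eP⁻¹ * (eQ * eP * eQ⁻¹) * (eQ * eP * eQ⁻¹) * eP) eT :=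
        ((hp.inv_left.mul_left hg).mul_left hg).mul_left hp
      rw [hw, wv1]
      generalize eQ * eP * eQ⁻¹ = g at hg hx ⊢
      generalize eP⁻¹ * g * g * eP = y at hx ⊢
      have e5 : (g * eT)⁻¹ * (g * y * g⁻¹ * eT⁻¹) * (g * eT) =
        eT⁻¹ * (y * (g⁻¹ * (eT⁻¹ * g * eT))) := by group
      have e6 : eT⁻¹ * g * eT = g := by
        rw [mul_assoc, hg.eq, inv_mul_cancel_left]
      rw [e5, e6, inv_mul_cancel, mul_one, hx.inv_right.eq]
    rw [← map_inv, ← map_mul, ← map_mul, e3] at h2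
    simpa using h2

end Pool.Agent.H26R2
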