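import Pool.Agent.H26R2.Auts

/-!
The closed surface group of genus four, the double of the free group of rank four.
-/

set_option autoImplicit false
set_option linter.unusedSimpArgs false
set_option linter.unnecessarySeqFocus false

namespace Pool.Agent.H26R2

/-- the relator of the closed surface group of genus `g` -/
abbrev rels (g : ℕ) : Set (FreeGroup (Fin g × Fin 2)) :=
  ({((List.finRange g).map (fun i : Fin g =>
            FreeGroup.of (i, (0 : Fin 2)) * FreeGroup.of (i, (1 : Fin 2)) *
            (FreeGroup.of (i, (0 : Fin 2)))⁻¹ * (FreeGroup.of (i, (1 : Fin 2)))⁻¹)).prod} :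
            Set (FreeGroup (Fin g × Fin 2)))

/-- the closed surface group of genus `g` -/
abbrev SG (g : ℕ) : Type := PresentedGroup (rels g)

/-- the relator in genus four written out -/
theorem relator4 {G : Type*} [Group G] (f : Fin 4 × Fin 2 → G) :
    FreeGroup.lift f (((List.finRange 4).map (fun i : Fin 4 =>
            FreeGroup.of (i, (0 : Fin 2)) * FreeGroup.of (i, (1 : Fin 2)) *
            (FreeGroup.of (i, (0 : Fin 2)))⁻¹ * (FreeGroup.of (i, (1 : Fin 2)))⁻¹)).prod) =
      cm (f (0, 0)) (f (0, 1)) * cm (f (1, 0)) (f (1, 1)) *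
        (cm (f (2, 0)) (f (2, 1)) * cm (f (3, 0)) (f (3, 1))) := by
  have : List.finRange 4 = [0, 1, 2, 3] := by decide
  rw [this]
  simp only [List.map_cons, List.map_nil, List.prod_cons, List.prod_nil, map_mul, map_inv, mul_one,
    FreeGroup.lift_apply_of, cm]
  group

/-- homomorphisms out of the surface group of genus four -/
def sgLift {G : Type*} [Group G] (f : Fin 4 × Fin 2 → G)
    (h : cm (f (0, 0)) (f (0, 1)) * cm (f (1, 0)) (f (1, 1)) *
        (cm (f (2, 0)) (f (2, 1)) * cm (f (3, 0)) (f (3, 1))) = 1) : SG 4 →* G :=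
  PresentedGroup.toGroup (f := f) (rels := rels 4) (by
    intro r hr
    rw [Set.mem_singleton_iff] at hr
    rw [hr, relator4, h])

@[simp] theorem sgLift_of {G : Type*} [Group G] (f : Fin 4 × Fin 2 → G) (h) (x : Fin 4 × Fin 2) :
    sgLift f h (PresentedGroup.of x) = f x := by
  simp [sgLift]

theorem sg_rel : cm (PresentedGroup.of (rels := rels 4) (0, 0)) (PresentedGroup.of (0, 1)) *
      cm (PresentedGroup.of (1, 0)) (PresentedGroup.of (1, 1)) *
      (cm (PresentedGroup.of (2, 0)) (PresentedGroup.of (2, 1)) *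
        cm (PresentedGroup.of (3, 0)) (PresentedGroup.of (3, 1))) = 1 := by
  have h1 := relator4 (fun x => PresentedGroup.of (rels := rels 4) x)
  rw [← h1]
  have h2 : FreeGroup.lift (fun x => PresentedGroup.of (rels := rels 4) x)
      = PresentedGroup.mk (rels 4) := by
    ext x
    simp [PresentedGroup.of]
  rw [h2]
  exact PresentedGroup.one_of_mem (Set.mem_singleton _)

theorem sg_hom_ext {G : Type*} [Group G] {f g : SG 4 →* G}
    (h : ∀ x, f (PresentedGroup.of x) = g (PresentedGroup.of x)) : f = g :=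
  PresentedGroup.ext h

open W

/-- generators -/
abbrev ge (i : Fin 4) (j : Fin 2) : SG 4 := PresentedGroup.of (i, j)

/-- first copy of `W` -/
def i0 : W →* SG 4 := FreeGroup.lift ![ge 0 0, ge 0 1, ge 1 0, ge 1 1]

/-- second (mirrored) copy of `W` -/
def i1 : W →* SG 4 := FreeGroup.lift ![ge 3 1, ge 3 0, ge 2 1, ge 2 0]

theorem i0_a : i0 a = ge 0 0 := by simp [i0, a]
theorem i0_b : i0 b = ge 0 1 := by simp [i0, b]
theorem i0_c : i0 c = ge 1 0 := by simp [i0, c]
theorem i0_d : i0 d = ge 1 1 := by simp [i0, d]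
theorem i1_a : i1 a = ge 3 1 := by simp [i1, a]
theorem i1_b : i1 b = ge 3 0 := by simp [i1, b]
theorem i1_c : i1 c = ge 2 1 := by simp [i1, c]
theorem i1_d : i1 d = ge 2 0 := by simp [i1, d]

theorem i0_D : i0 D = i1 D := by
  have h := eq_inv_of_mul_eq_one_left sg_rel
  rw [D, map_mul, map_cm, map_cm, map_mul, map_cm, map_cm, i0_a, i0_b, i0_c, i0_d, i1_a, i1_b,
    i1_c, i1_d, h]
  simp only [cm]
  group

/-- the folding map -/
def fold : SG 4 →* W := sgLift (fun x => ![![a, b], ![c, d], ![d, c], ![b, a]] x.1 x.2) (by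
  simp [cm]
  group)

theorem fold_i0 (w : W) : fold (i0 w) = w := by
  have : fold.comp i0 = MonoidHom.id W := by
    apply hom_ext <;> simp [i0_a, i0_b, i0_c, i0_d, fold]
  exact DFunLike.congr_fun this w

theorem fold_i1 (w : W) : fold (i1 w) = w := by
  have : fold.comp i1 = MonoidHom.id W := by
    apply hom_ext <;> simp [i1_a, i1_b, i1_c, i1_d, fold]
  exact DFunLike.congr_fun this w

/-- homomorphisms out of the double -/
theorem dbl_hom_ext {G : Type*} [Group G] {f g : SG 4 →* G}
    (h0 : ∀ w, f (i0 w) = g (i0 w)) (h1 : ∀ w, f (i1 w) = g (i1 w)) : f = g := by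
  apply sg_hom_ext
  rintro ⟨i, j⟩
  fin_cases i <;> fin_cases j
  · have := h0 a; rwa [i0_a] at this
  · have := h0 b; rwa [i0_b] at this
  · have := h0 c; rwa [i0_c] at this
  · have := h0 d; rwa [i0_d] at this
  · have := h1 d; rwa [i1_d] at this
  · have := h1 c; rwa [i1_c] at this
  · have := h1 b; rwa [i1_b] at this
  · have := h1 a; rwa [i1_a] at this

/-- stabiliser of the boundary word -/
def Ast : Subgroup (MulAut W) where
  carrier := {f | f D = D}
  mul_mem' := by
    intro f g hf hg
    simp only [Set.mem_ofPred_eq, MulAut.mul_apply] at *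
    rw [hg, hf]
  one_mem' := rfl
  inv_mem' := by
    intro f hf
    simp only [Set.mem_ofPred_eq] at *
    have : f⁻¹ (f D) = D := MulAut.inv_apply_self _ f D
    rwa [hf] at this

/-- the doubled endomorphism -/
def dblHom (f : Ast) : SG 4 →* SG 4 :=
  sgLift (fun x => ![![i0 (f.1 a), i0 (f.1 b)], ![i0 (f.1 c), i0 (f.1 d)],
    ![i1 (f.1 d), i1 (f.1 c)], ![i1 (f.1 b), i1 (f.1 a)]] x.1 x.2) (by
  have h : i0 (f.1 D) = i1 (f.1 D) := by
    have := f.2
    change f.1 D = D at this
    rw [this, i0_D]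
  rw [D, map_mul, map_mul] at h
  have e : ∀ x y : W, f.1 (cm x y) = cm (f.1 x) (f.1 y) := fun x y => map_cm f.1.toMonoidHom x y
  simp only [e, map_cm, map_mul] at h
  simp only [Matrix.cons_val]
  rw [h]
  simp only [cm]
  group)

theorem dblHom_i0 (f : Ast) (w : W) : dblHom f (i0 w) = i0 (f.1 w) := by
  have : (dblHom f).comp i0 = i0.comp f.1.toMonoidHom := by
    apply hom_ext <;> simp [i0_a, i0_b, i0_c, i0_d, dblHom]
  exact DFunLike.congr_fun this w

theorem dblHom_i1 (f : Ast) (w : W) : dblHom f (i1 w) = i1 (f.1 w) := by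
  have : (dblHom f).comp i1 = i1.comp f.1.toMonoidHom := by
    apply hom_ext <;> simp [i1_a, i1_b, i1_c, i1_d, dblHom]
  exact DFunLike.congr_fun this w

theorem dblHom_mul (f g : Ast) : dblHom (f * g) = (dblHom f).comp (dblHom g) := by
  apply dbl_hom_ext
  · intro w
    simp only [MonoidHom.comp_apply, dblHom_i0]
    rfl
  · intro w
    simp only [MonoidHom.comp_apply, dblHom_i1]
    rfl

theorem dblHom_one : dblHom 1 = MonoidHom.id _ := by
  apply dbl_hom_ext
  · intro w
    simp only [dblHom_i0]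
    rfl
  · intro w
    simp only [dblHom_i1]
    rfl

/-- the double of automorphisms fixing the boundary word -/
def dbl : Ast →* MulAut (SG 4) where
  toFun f := MonoidHom.toMulEquiv (dblHom f) (dblHom f⁻¹)
    (by rw [← dblHom_mul, inv_mul_cancel, dblHom_one])
    (by rw [← dblHom_mul, mul_inv_cancel, dblHom_one])
  map_one' := by
    ext x
    simp [dblHom_one]
  map_mul' f g := by
    ext x
    simp [dblHom_mul]

theorem dbl_i0 (f : Ast) (w : W) : dbl f (i0 w) = i0 (f.1 w) := dblHom_i0 f w
theorem dbl_i1 (f : Ast) (w : W) : dbl f (i1 w) = i1 (f.1 w) := dblHom_i1 f w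

/-- the outer automorphism group, as in the frozen statement -/
abbrev Inn (G : Type*) [Group G] : Subgroup (MulAut G) :=
  Subgroup.normalClosure (Set.range (fun x : G => MulAut.conj x))

theorem mem_Inn {G : Type*} [Group G] (f : MulAut G) : f ∈ Inn G ↔ ∃ z, f = MulAut.conj z := by
  constructor
  · intro h
    have hle : Inn G ≤ (MulAut.conj : G →* MulAut G).range := by
      have : (MulAut.conj : G →* MulAut G).range.Normal := by
        constructor
        rintro _ ⟨z, rfl⟩ g
        refine ⟨g z, ?_⟩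
        ext x
        simp
      apply Subgroup.normalClosure_le_normal
      rintro _ ⟨z, rfl⟩
      exact ⟨z, rfl⟩
    obtain ⟨z, hz⟩ := hle h
    exact ⟨z, hz.symm⟩
  · rintro ⟨z, rfl⟩
    exact Subgroup.subset_normalClosure ⟨z, rfl⟩

/-- if the double of `f` is inner then `f` is conjugation by an element commuting with `D`. -/
theorem inner_of_dbl_inner (f : Ast) (h : dbl f ∈ Inn (SG 4)) :
    ∃ u : W, (∀ w, f.1 w = u * w * u⁻¹) ∧ Commute u D := by
  obtain ⟨z, hz⟩ := (mem_Inn _).mp h
  have h1 : ∀ w, f.1 w = fold z * w * (fold z)⁻¹ := by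
    intro w
    have h2 := dbl_i0 f w
    rw [hz, MulAut.conj_apply] at h2
    have h3 := congrArg fold h2
    rw [map_mul, map_mul, map_inv, fold_i0, fold_i0] at h3
    exact h3.symm
  refine ⟨fold z, h1, ?_⟩
  have h4 := h1 D
  rw [show f.1 D = D from f.2] at h4
  rw [Commute, SemiconjBy]
  rw [eq_mul_inv_iff_mul_eq] at h4
  exact h4.symm

end Pool.Agent.H26R2
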